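import Pool.Agent.Helper91.CK.Block

set_option autoImplicit false

namespace Pool.Agent.J4.H49.DK
open Finset Pool.Agent.Helper91.CK

section gen
variable {V : Type*} [Fintype V] [DecidableEq V]

/-- local contribution of a vertex -/
def loc (W : V → V → ℤ) (σ : V → ℤ) (x : V) : ℤ := -∑ y, W x y * σ x * σ y

lemma F_eq (W : V → V → ℤ) (σ : V → ℤ) : F W univ σ = ∑ x, loc W σ x := by
  unfold F loc
  rw [Finset.sum_neg_distrib]

/-- flip the signs on a set -/
def flip (X : Finset V) (σ : V → ℤ) (x : V) : ℤ := if x ∈ X then -σ x else σ x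

lemma flip_Sg (X : Finset V) {σ : V → ℤ} (hσ : Sg σ) : Sg (flip X σ) := by
  intro v
  unfold flip
  by_cases h : v ∈ X
  · rw [if_pos h]
    rcases hσ v with h1 | h1 <;> simp [h1]
  · rw [if_neg h]
    exact hσ v

lemma flip_sum (X : Finset V) (σ : V → ℤ) :
    ∑ x, flip X σ x = ∑ x, σ x - 2 * ∑ x ∈ X, σ x := by
  have h1 : ∀ x, flip X σ x = σ x - 2 * (if x ∈ X then σ x else 0) := by
    intro x
    unfold flip
    by_cases h : x ∈ X <;> simp [h]; ring
  simp_rw [h1]
  rw [Finset.sum_sub_distrib, ← Finset.mul_sum, Finset.sum_ite_mem, Finset.univ_inter]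

lemma flip_F (W : V → V → ℤ) (hW : ∀ x y, W x y = W y x) (X : Finset V) (σ : V → ℤ) :
    F W univ (flip X σ) = F W univ σ + 4 * (F W X σ - ∑ x ∈ X, loc W σ x) := by
  have hu : (univ : Finset V) = X ∪ Xᶜ := (Finset.union_compl X).symm
  have hd : Disjoint X Xᶜ := disjoint_compl_right
  have h1 : F W univ (flip X σ) = F W X σ + F W Xᶜ σ + 2 * cr W X Xᶜ σ σ := by
    rw [hu, F_union W hW X Xᶜ hd]
    have e1 : F W X (flip X σ) = F W X σ := by
      rw [← F_neg W X σ]
      apply F_congr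
      intro x hx
      simp [flip, hx]
    have e2 : F W Xᶜ (flip X σ) = F W Xᶜ σ := by
      apply F_congr
      intro x hx
      rw [Finset.mem_compl] at hx
      simp [flip, hx]
    have e3 : cr W X Xᶜ (flip X σ) (flip X σ) = - cr W X Xᶜ σ σ := by
      unfold cr
      rw [← Finset.sum_neg_distrib]
      apply Finset.sum_congr rfl
      intro x hx
      rw [← Finset.sum_neg_distrib]
      apply Finset.sum_congr rfl
      intro y hy
      rw [Finset.mem_compl] at hy
      simp only [flip, if_pos hx, if_neg hy]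
      ring
    rw [e1, e2, e3]
    ring
  have h2 : F W univ σ = F W X σ + F W Xᶜ σ - 2 * cr W X Xᶜ σ σ := by
    conv_lhs => rw [hu]
    rw [F_union W hW X Xᶜ hd]
  have h3 : ∑ x ∈ X, loc W σ x = F W X σ - cr W X Xᶜ σ σ := by
    unfold loc F cr
    rw [← Finset.sum_neg_distrib, ← Finset.sum_sub_distrib]
    apply Finset.sum_congr rfl
    intro x _
    rw [← Finset.sum_add_sum_compl X]
    ring
  rw [h1, h2, h3]
  ring

/-- flipping one vertex -/
lemma flip_one (W : V → V → ℤ) (hW : ∀ x y, W x y = W y x) (h0 : ∀ x, W x x = 0) (x : V)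
    (σ : V → ℤ) : F W univ (flip {x} σ) = F W univ σ - 4 * loc W σ x := by
  rw [flip_F W hW]
  simp [F, h0]
  ring

lemma flip_one_sum (x : V) (σ : V → ℤ) :
    ∑ y, flip {x} σ y = ∑ y, σ y - 2 * σ x := by
  rw [flip_sum, Finset.sum_singleton]

/-- the difference of the two sides -/
lemma side (W : V → V → ℤ) (hW : ∀ x y, W x y = W y x) {σ : V → ℤ} (hσ : Sg σ) :
    ∑ x, σ x * loc W σ x = -∑ y, (∑ x, W y x) * σ y := by
  unfold loc
  have h1 : ∀ x, σ x * -∑ y, W x y * σ x * σ y = -∑ y, W x y * σ y := by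
    intro x
    have h2 : σ x * σ x = 1 := by rcases hσ x with h | h <;> simp [h]
    rw [mul_neg, Finset.mul_sum]
    congr 1
    apply Finset.sum_congr rfl
    intro y _
    linear_combination (W x y * σ y) * h2
  simp_rw [h1]
  rw [Finset.sum_neg_distrib, Finset.sum_comm]
  congr 1
  apply Finset.sum_congr rfl
  intro y _
  rw [Finset.sum_mul]
  apply Finset.sum_congr rfl
  intro x _
  rw [hW x y]

lemma side_plus (W : V → V → ℤ) (hW : ∀ x y, W x y = W y x) {σ : V → ℤ} (hσ : Sg σ) :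
    ∑ x, (1 + σ x) * loc W σ x = F W univ σ - ∑ y, (∑ x, W y x) * σ y := by
  have h : ∀ x, (1 + σ x) * loc W σ x = loc W σ x + σ x * loc W σ x := by intro x; ring
  simp_rw [h]
  rw [Finset.sum_add_distrib, side W hW hσ, F_eq]
  ring

lemma side_minus (W : V → V → ℤ) (hW : ∀ x y, W x y = W y x) {σ : V → ℤ} (hσ : Sg σ) :
    ∑ x, (1 - σ x) * loc W σ x = F W univ σ + ∑ y, (∑ x, W y x) * σ y := by
  have h : ∀ x, (1 - σ x) * loc W σ x = loc W σ x - σ x * loc W σ x := by intro x; ring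
  simp_rw [h]
  rw [Finset.sum_sub_distrib, side W hW hσ, F_eq]
  ring

lemma neg_Sg {σ : V → ℤ} (hσ : Sg σ) : Sg (fun x => -σ x) := by
  intro v
  rcases hσ v with h | h <;> simp [h]

lemma neg_F (W : V → V → ℤ) (σ : V → ℤ) : F W univ (fun x => -σ x) = F W univ σ :=
  F_neg W univ σ

/-- the sum of the signs has the parity of the number of vertices -/
lemma sum_parity {σ : V → ℤ} (hσ : Sg σ) :
    ∃ c : ℤ, ∑ x, σ x = 2 * c - (Fintype.card V : ℤ) := by
  have key : ∀ s : Finset V, ∃ c : ℤ, ∑ x ∈ s, σ x = 2 * c - s.card := by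
    intro s
    induction s using Finset.induction_on with
    | empty => exact ⟨0, by simp⟩
    | insert a s ha ih =>
      obtain ⟨c, hc⟩ := ih
      rw [Finset.sum_insert ha, Finset.card_insert_of_notMem ha, hc]
      rcases hσ a with h | h
      · exact ⟨c + 1, by rw [h]; push_cast; ring⟩
      · exact ⟨c, by rw [h]; push_cast; ring⟩
  obtain ⟨c, hc⟩ := key univ
  exact ⟨c, by rw [hc, Finset.card_univ]⟩

end gen

section reg
variable {V : Type*} [Fintype V] [DecidableEq V]
variable {k : ℕ} {G : SimpleGraph V} [DecidableRel G.Adj]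

/-- integer adjacency -/
def A (G : SimpleGraph V) [DecidableRel G.Adj] (x y : V) : ℤ := (ad G x y : ℤ)

lemma A_symm (x y : V) : A G x y = A G y x := by
  unfold A
  rw [ad_symm]

lemma A_self (x : V) : A G x x = 0 := by
  unfold A
  rw [ad_self]
  rfl

lemma A_row (hreg : ∀ v, ∑ y, ad G v y = k) (v : V) : ∑ y, A G v y = k := by
  unfold A
  exact_mod_cast hreg v

lemma A_nonneg (x y : V) : 0 ≤ A G x y := by
  unfold A
  positivity

lemma A_le (x y : V) : A G x y ≤ 1 := by
  unfold A ad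
  by_cases h : G.Adj x y <;> simp [h]

lemma A_one {x y : V} (h : G.Adj x y) : A G x y = 1 := by
  simp [A, ad, h]

lemma A_zero {x y : V} (h : ¬ G.Adj x y) : A G x y = 0 := by
  simp [A, ad, h]

/-- parity of the local contribution -/
lemma loc_parity (hreg : ∀ v, ∑ y, ad G v y = k) {σ : V → ℤ} (hσ : Sg σ) (x : V) :
    ∃ c : ℤ, loc (A G) σ x = 2 * c - k := by
  have key : ∀ s : Finset V, ∃ c : ℤ, ∑ y ∈ s, A G x y * σ x * σ y = 2 * c - ∑ y ∈ s, A G x y := by
    intro s
    induction s using Finset.induction_on with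
    | empty => exact ⟨0, by simp⟩
    | insert a s ha ih =>
      obtain ⟨c, hc⟩ := ih
      rw [Finset.sum_insert ha, Finset.sum_insert ha, hc]
      rcases hσ a with h | h <;> rcases hσ x with h' | h'
      · exact ⟨c + A G x a, by rw [h, h']; ring⟩
      · exact ⟨c, by rw [h, h']; ring⟩
      · exact ⟨c, by rw [h, h']; ring⟩
      · exact ⟨c + A G x a, by rw [h, h']; ring⟩
  obtain ⟨c, hc⟩ := key univ
  rw [A_row hreg] at hc
  refine ⟨k - c, ?_⟩
  unfold loc
  rw [hc]
  ring

lemma reg_plus (hreg : ∀ v, ∑ y, ad G v y = k) {σ : V → ℤ} (hσ : Sg σ) :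
    ∑ x, (1 + σ x) * loc (A G) σ x = F (A G) univ σ - k * ∑ x, σ x := by
  rw [side_plus (A G) A_symm hσ]
  simp_rw [A_row hreg]
  rw [Finset.mul_sum]

lemma reg_minus (hreg : ∀ v, ∑ y, ad G v y = k) {σ : V → ℤ} (hσ : Sg σ) :
    ∑ x, (1 - σ x) * loc (A G) σ x = F (A G) univ σ + k * ∑ x, σ x := by
  rw [side_minus (A G) A_symm hσ]
  simp_rw [A_row hreg]
  rw [Finset.mul_sum]

end reg

end Pool.Agent.J4.H49.DK
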