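import Pool.Agent.J4.H49.DK.RPart2

set_option autoImplicit false
set_option linter.unusedSectionVars false

namespace Pool.Agent.J4.H49.DK
open Finset Pool.Agent.Helper91.CK

variable {V : Type*} [Fintype V] [DecidableEq V]
variable {k : ℕ} {H : SimpleGraph V} [DecidableRel H.Adj] {a : V → ℕ} {h : V → V → ℕ}

lemma wt_row (hR : RH k H a h) (x : V) :
    (k : ℤ) - 2 * a x ≤ ∑ y, Wt H h x y ∧ ∑ y, Wt H h x y ≤ k := by
  have h1 : ∑ y, Wt H h x y = ((univ.filter (fun y => H.Adj x y)).card : ℤ) -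
      ((∑ y, h x y : ℕ) : ℤ) := by
    unfold Wt
    rw [Finset.sum_sub_distrib, Finset.card_filter]
    push_cast
    rfl
  have h2 := hR.hdeg x
  have h3 := hR.hsum x
  rw [h1]
  constructor
  · omega
  · omega

/-- the rest can be given signs with a small imbalance -/
theorem rbal (hk : 3000 ≤ k) (hR : RH k H a h) (hne : Even (Fintype.card V)) :
    ∃ σ : V → ℤ, Sg σ ∧ (3 * ((k : ℤ) + 1) + 8) * (Fintype.card V : ℤ) +
      6 * ((k : ℤ) + 1) * |∑ x, σ x| ≤
      3 * ((k : ℤ) + 1) * F (Wt H h) univ σ + ((k : ℤ) + 1) * ∑ x, (a x : ℤ) := by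
  set n : ℤ := (Fintype.card V : ℤ) with hn
  set Aa : ℤ := ∑ x, (a x : ℤ) with hA
  have hA0 : 0 ≤ Aa := Finset.sum_nonneg (fun x _ => by positivity)
  have hk' : (3000 : ℤ) ≤ k := by exact_mod_cast hk
  have hn0 : 0 ≤ n := by positivity
  obtain ⟨σ0, h01, h02⟩ := rpart2 hk hR
  obtain ⟨σ, ⟨hs, hF⟩, hmin⟩ := min_natAbs (P := fun σ : V → ℤ => Sg σ ∧
    (10 * ((k : ℤ) + 1) + 50) * n ≤ 10 * ((k : ℤ) + 1) * F (Wt H h) univ σ +
      3 * ((k : ℤ) + 1) * Aa) ⟨σ0, h01, h02⟩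
  obtain ⟨σ, hs, hF, hmin, hpos⟩ : ∃ σ : V → ℤ, Sg σ ∧
      (10 * ((k : ℤ) + 1) + 50) * n ≤ 10 * ((k : ℤ) + 1) * F (Wt H h) univ σ +
        3 * ((k : ℤ) + 1) * Aa ∧
      (∀ τ, Sg τ ∧ (10 * ((k : ℤ) + 1) + 50) * n ≤ 10 * ((k : ℤ) + 1) * F (Wt H h) univ τ +
        3 * ((k : ℤ) + 1) * Aa → (∑ x, σ x).natAbs ≤ (∑ x, τ x).natAbs) ∧
      0 ≤ ∑ x, σ x := by
    rcases le_total 0 (∑ x, σ x) with h | h
    · exact ⟨σ, hs, hF, hmin, h⟩
    · refine ⟨fun x => -σ x, neg_Sg hs, by rw [neg_F]; exact hF, ?_, ?_⟩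
      · intro τ hτ
        rw [sum_neg_fun, Int.natAbs_neg]
        exact hmin τ hτ
      · rw [sum_neg_fun]
        linarith
  refine ⟨σ, hs, ?_⟩
  rw [abs_of_nonneg hpos]
  set D := ∑ x, σ x with hDdef
  -- the target follows from a bound on `D`
  have hgoal : 60 * ((k : ℤ) + 1) * D ≤ 70 * n + (k + 1) * Aa →
      (3 * ((k : ℤ) + 1) + 8) * n + 6 * ((k : ℤ) + 1) * D ≤
        3 * ((k : ℤ) + 1) * F (Wt H h) univ σ + ((k : ℤ) + 1) * Aa := by
    intro h1
    linarith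
  apply hgoal
  by_cases hD0 : D = 0
  · rw [hD0]
    have : 0 ≤ ((k : ℤ) + 1) * Aa := by positivity
    linarith
  have hD2 : 2 ≤ D := by
    obtain ⟨c, hc⟩ := sum_parity hs
    obtain ⟨e, he⟩ := hne
    have : n = e + e := by rw [hn]; exact_mod_cast he
    rw [← hDdef, ← hn, this] at hc
    omega
  have hDn : D ≤ n := by
    rw [hDdef, hn]
    have : ∑ x, σ x ≤ ∑ x : V, (1 : ℤ) := by
      apply Finset.sum_le_sum
      intro x _
      rcases hs x with h | h <;> simp [h]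
    simpa using this
  by_cases hn4 : n < 4
  · -- two vertices
    have hn2 : n = 2 := by
      obtain ⟨e, he⟩ := hne
      have : n = e + e := by rw [hn]; exact_mod_cast he
      omega
    have hDeq : D = 2 := by omega
    have hAb : 120 ≤ Aa := by
      have h1 : ∀ x : V, (60 : ℤ) ≤ a x := by
        intro x
        have h2 := hR.hdeg x
        have h3 : (univ.filter (fun y => H.Adj x y)).card ≤ Fintype.card V :=
          Finset.card_le_univ _
        have h4 : Fintype.card V = 2 := by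
          have := hn2
          rw [hn] at this
          exact_mod_cast this
        have : 60 ≤ a x := by omega
        exact_mod_cast this
      have h2 : ∑ x : V, (60 : ℤ) ≤ Aa := Finset.sum_le_sum (fun x _ => h1 x)
      rw [Finset.sum_const, Finset.card_univ, nsmul_eq_mul, ← hn, hn2] at h2
      linarith
    rw [hDeq, hn2]
    nlinarith
  push Not at hn4
  have hx : ∀ x, σ x = 1 → 10 * ((k : ℤ) + 1) * F (Wt H h) univ σ + 3 * ((k : ℤ) + 1) * Aa -
      (10 * ((k : ℤ) + 1) + 50) * n < 40 * ((k : ℤ) + 1) * loc (Wt H h) σ x := by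
    intro x hx
    by_contra hc
    push Not at hc
    have h2 := hmin (flip {x} σ) ⟨flip_Sg _ hs, by
      rw [flip_one (Wt H h) (Wt_symm hR) (Wt_self hR)]
      linarith⟩
    rw [flip_one_sum, hx, ← hDdef] at h2
    omega
  set Y := 10 * ((k : ℤ) + 1) * F (Wt H h) univ σ + 3 * ((k : ℤ) + 1) * Aa -
      (10 * ((k : ℤ) + 1) + 50) * n with hY
  have hY0 : 0 ≤ Y := by linarith
  have h4 := plus_ge hs (fun x => 40 * ((k : ℤ) + 1) * loc (Wt H h) σ x) Y (fun x hx' => by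
    have := hx x hx'
    linarith)
  have h5 : ∑ x, (1 + σ x) * (40 * ((k : ℤ) + 1) * loc (Wt H h) σ x) =
      40 * ((k : ℤ) + 1) * ∑ x, (1 + σ x) * loc (Wt H h) σ x := by
    rw [Finset.mul_sum]
    apply Finset.sum_congr rfl
    intro x _
    ring
  have h6 : ∑ x, (1 + σ x) * loc (Wt H h) σ x ≤ F (Wt H h) univ σ - k * D + 2 * Aa := by
    rw [side_plus (Wt H h) (Wt_symm hR) hs]
    have : (k : ℤ) * D - 2 * Aa ≤ ∑ y, (∑ x, Wt H h y x) * σ y := by
      rw [hDdef, hA, Finset.mul_sum, Finset.mul_sum, ← Finset.sum_sub_distrib]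
      apply Finset.sum_le_sum
      intro y _
      obtain ⟨r1, r2⟩ := wt_row hR y
      rcases hs y with h | h
      · rw [h]; linarith
      · rw [h]
        have : (0 : ℤ) ≤ a y := by positivity
        linarith
    linarith
  rw [h5, ← hn, ← hDdef] at h4
  have h7 : 40 * ((k : ℤ) + 1) * ∑ x, (1 + σ x) * loc (Wt H h) σ x ≤
      40 * ((k : ℤ) + 1) * (F (Wt H h) univ σ - k * D + 2 * Aa) :=
    mul_le_mul_of_nonneg_left h6 (by positivity)
  have h8 : 0 ≤ (n - 4) * Y := mul_nonneg (by linarith) hY0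
  have h9 : 0 ≤ D * Y := mul_nonneg (by linarith) hY0
  have h10 : 40 * ((k : ℤ) + 1) * (k * D) ≤ (40 * ((k : ℤ) + 1) + 200) * n +
      68 * ((k : ℤ) + 1) * Aa := by
    have e1 : 10 * ((k : ℤ) + 1) * F (Wt H h) univ σ = Y - 3 * ((k : ℤ) + 1) * Aa +
      (10 * ((k : ℤ) + 1) + 50) * n := by rw [hY]; ring
    have e2 : (n + D) * Y ≤ 4 * (Y - 3 * ((k : ℤ) + 1) * Aa +
      (10 * ((k : ℤ) + 1) + 50) * n) + 40 * ((k : ℤ) + 1) * (2 * Aa - k * D) := by
      rw [← e1]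
      linarith
    linarith
  have h11 : (k : ℤ) * (60 * ((k : ℤ) + 1) * D) ≤ k * (70 * n + (k + 1) * Aa) := by
    have e1 : 0 ≤ ((k : ℤ) + 1) * Aa := by positivity
    have e2 : 0 ≤ ((k : ℤ) - 102) * (((k : ℤ) + 1) * Aa) := mul_nonneg (by linarith) e1
    have e3 : 0 ≤ (10 * (k : ℤ) - 360) * n := mul_nonneg (by linarith) hn0
    linarith
  exact le_of_mul_le_mul_left h11 (by linarith)

end Pool.Agent.J4.H49.DK
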