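import Pool.Agent.Helper91.CK.Lower
import Pool.Agent.J4.H49.DK.RBal

set_option autoImplicit false
set_option linter.unusedSectionVars false

namespace Pool.Agent.J4.H49.DK
open Finset Pool.Agent.Helper91.CK

variable {V : Type*} [Fintype V] [DecidableEq V]
variable {k : ℕ} {G : SimpleGraph V} [DecidableRel G.Adj]

/-- odd degree: a good sign vector whose imbalance is paid for -/
theorem lower_odd (hk : 3000 ≤ k) (hko : Odd k) (hreg : ∀ v, ∑ y, ad G v y = k)
    (hcf : G.CliqueFree (k + 1)) (hVe : Even (Fintype.card V)) :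
    ∃ σ : V → ℤ, Sg σ ∧ (3 * ((k : ℤ) + 1) + 8) * (Fintype.card V : ℤ) +
      6 * ((k : ℤ) + 1) * |∑ x, σ x| ≤
      3 * ((k : ℤ) + 1) * F (fun x y => (ad G x y : ℤ)) univ σ := by
  classical
  have hkk : 2 * ((k + 1) / 2) = k + 1 := by
    obtain ⟨e, he⟩ := hko
    omega
  obtain ⟨C, hTi, hd, hmax⟩ := exists_family G k
  have hR := RH_of hreg C hd hmax
  have hcardN : Fintype.card V = Fintype.card {x : V // ∀ B ∈ C, x ∉ B} +
      (k + 1) * (Fintype.card {B // B ∈ C}) := by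
    have h1 := split_sum C hd (fun _ => (1 : ℕ))
    have h2 : ∀ B : {B // B ∈ C}, ∑ x ∈ B.1, (1 : ℕ) = k + 1 := by
      intro B
      simp [(hTi B.1 B.2).1]
    simp_rw [h2] at h1
    simp only [Finset.sum_const, Finset.card_univ, smul_eq_mul, mul_one] at h1
    rw [h1]
    ring
  have hRe : Even (Fintype.card {x : V // ∀ B ∈ C, x ∉ B}) := by
    obtain ⟨e, he⟩ := hko
    obtain ⟨f, hf⟩ := hVe
    have h1 : (k + 1) * (Fintype.card {B // B ∈ C}) = 2 * ((e + 1) * (Fintype.card {B // B ∈ C})) := by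
      rw [he]; ring
    rw [h1] at hcardN
    rw [Nat.even_iff]
    omega
  obtain ⟨σR, hσR, hRF⟩ := rbal hk hR hRe
  have heT := eT_eq hreg C hTi hd
  have hch : ∀ B : {B // B ∈ C}, ∃ X : Finset V, tch G B.1 ⊆ X ∧ X ⊆ B.1 ∧
      X.card = (k + 1) / 2 := by
    intro B
    have h1 := hTi B.1 B.2
    exact Finset.exists_subsuperset_card_eq (Finset.filter_subset _ _) (by
      have := h1.2
      omega) (by rw [h1.1]; exact Nat.div_le_self _ _)
  choose X hX1 hX2 hX3 using hch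
  obtain ⟨ε, hε, hTF⟩ := tpart (wTb G C) (wRb G C) (wTb_symm C) (wTb_self C)
    (fun B => by rw [heT B]; exact even_sum (ms G) ms_symm ms_self B.1)
    (fun B => by rw [heT B]; exact miss_pos hcf B.1 (hTi B.1 B.2).1) σR hσR
  -- the sign assignment
  set σ : V → ℤ := fun v => if h : ∀ B ∈ C, v ∉ B then σR ⟨v, h⟩ else
    ∑ B : {B // B ∈ C}, if v ∈ B.1 then ε B * (if v ∈ X B then 1 else -1) else 0 with hσdef
  have hσR' : ∀ x : {x : V // ∀ B ∈ C, x ∉ B}, σ x.1 = σR x := by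
    intro x
    rw [hσdef]
    simp only
    rw [dif_pos x.2]
  have hσB : ∀ B : {B // B ∈ C}, ∀ v ∈ B.1, σ v = ε B * (if v ∈ X B then 1 else -1) := by
    intro B v hv
    rw [hσdef]
    simp only
    have hn : ¬ ∀ B ∈ C, v ∉ B := fun h => h B.1 B.2 hv
    rw [dif_neg hn, Finset.sum_eq_single B]
    · rw [if_pos hv]
    · intro B' _ hne
      rw [if_neg]
      intro hv'
      have : B'.1 ≠ B.1 := fun h => hne (Subtype.ext h)
      exact Finset.disjoint_left.mp (hd B'.1 B'.2 B.1 B.2 this) hv' hv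
    · intro h
      exact absurd (Finset.mem_univ _) h
  have hσs : Sg σ := by
    intro v
    by_cases hn : ∀ B ∈ C, v ∉ B
    · rw [hσR' ⟨v, hn⟩]
      exact hσR _
    · push Not at hn
      obtain ⟨B, hB, hv⟩ := hn
      rw [hσB ⟨B, hB⟩ v hv]
      rcases hε ⟨B, hB⟩ with h | h <;> by_cases h2 : v ∈ X ⟨B, hB⟩ <;> simp [h, h2]
  refine ⟨σ, hσs, ?_⟩
  have hsumσ : ∑ x, σ x = ∑ x, σR x := by
    rw [split_sum C hd σ]
    have e1 : ∑ x : {x : V // ∀ B ∈ C, x ∉ B}, σ x.1 = ∑ x, σR x := by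
      apply Finset.sum_congr rfl
      intro x _
      exact hσR' x
    have e2 : ∑ B : {B // B ∈ C}, ∑ x ∈ B.1, σ x = 0 := by
      apply Finset.sum_eq_zero
      intro B _
      have e3 : ∑ x ∈ B.1, σ x = ε B * ∑ x ∈ B.1, (if x ∈ X B then (1 : ℤ) else -1) := by
        rw [Finset.mul_sum]
        apply Finset.sum_congr rfl
        intro x hx
        exact hσB B x hx
      rw [e3, Finset.sum_ite, Finset.sum_const, Finset.sum_const]
      have e4 : B.1.filter (fun x => x ∈ X B) = X B := by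
        ext x
        rw [Finset.mem_filter]
        exact ⟨fun h => h.2, fun h => ⟨hX2 B h, h⟩⟩
      have e5 : B.1.filter (fun x => x ∉ X B) = B.1 \ X B := by
        ext x
        rw [Finset.mem_filter, Finset.mem_sdiff]
      rw [e4, e5, Finset.card_sdiff_of_subset (hX2 B), hX3 B, (hTi B.1 B.2).1]
      have e6 : k + 1 - (k + 1) / 2 = (k + 1) / 2 := by omega
      rw [e6]
      simp
    rw [e1, e2, add_zero]
  have hε2 : ∀ B, ε B * ε B = 1 := by
    intro B
    rcases hε B with h | h <;> simp [h]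
  -- sums across
  have hout : ∀ B : {B // B ∈ C}, ∀ x ∈ B.1, ∀ y, y ∉ B.1 → 
      (ad G x y : ℤ) * σ x = (ad G x y : ℤ) * ε B := by
    intro B x hx y hy
    by_cases hadj : G.Adj x y
    · have := hX1 B (ext_touch hreg B.1 (hTi B.1 B.2).1 x y hx hy hadj)
      rw [hσB B x hx, if_pos this]
      ring
    · simp [ad, hadj]
  have hRB : ∀ (x : {x : V // ∀ B ∈ C, x ∉ B}) (B : {B // B ∈ C}),
      ∑ y ∈ B.1, (ad G x.1 y : ℤ) * σ x.1 * σ y = (wRb G C B x : ℤ) * ε B * σR x := by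
    intro x B
    unfold wRb
    push_cast
    rw [Finset.sum_mul, Finset.sum_mul]
    apply Finset.sum_congr rfl
    intro y hy
    have h1 := hout B y hy x.1 (x.2 B.1 B.2)
    rw [ad_symm x.1 y, hσR' x]
    linear_combination (σR x) * h1
  have hBR : ∀ (x : {x : V // ∀ B ∈ C, x ∉ B}) (B : {B // B ∈ C}),
      ∑ y ∈ B.1, (ad G y x.1 : ℤ) * σ y * σ x.1 = (wRb G C B x : ℤ) * ε B * σR x := by
    intro x B
    rw [← hRB x B]
    apply Finset.sum_congr rfl
    intro y hy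
    rw [ad_symm x.1 y]
    ring
  have hBB : ∀ (B B' : {B // B ∈ C}), ∑ x ∈ B.1, ∑ y ∈ B'.1, (ad G x y : ℤ) * σ x * σ y =
      (wTb G C B B' : ℤ) * ε B * ε B' + (if B = B' then
        (- (2 * (((k + 1) / 2 : ℕ) : ℤ)) - (eT (wTb G C) (wRb G C) B : ℤ)) else 0) := by
    intro B B'
    by_cases h : B = B'
    · subst h
      rw [if_pos rfl, wTb_self, heT B]
      simp only [Nat.cast_zero, zero_mul, zero_add]
      rw [← block_sum B.1 (X B) (hTi B.1 B.2).1 (hX1 B) (hX2 B) (hX3 B)]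
      apply Finset.sum_congr rfl
      intro x hx
      apply Finset.sum_congr rfl
      intro y hy
      rw [hσB B x hx, hσB B y hy]
      linear_combination ((ad G x y : ℤ) * (if x ∈ X B then 1 else -1) *
        (if y ∈ X B then 1 else -1)) * hε2 B
    · rw [if_neg h, add_zero]
      unfold wTb
      rw [if_neg h]
      push_cast
      rw [Finset.sum_mul, Finset.sum_mul]
      apply Finset.sum_congr rfl
      intro x hx
      rw [Finset.sum_mul, Finset.sum_mul]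
      apply Finset.sum_congr rfl
      intro y hy
      have hne : B.1 ≠ B'.1 := fun h2 => h (Subtype.ext h2)
      have hdis := hd B.1 B.2 B'.1 B'.2 hne
      have h1 := hout B x hx y (Finset.disjoint_right.mp hdis hy)
      have h2 := hout B' y hy x (Finset.disjoint_left.mp hdis hx)
      rw [ad_symm y x] at h2
      linear_combination (σ y) * h1 + (ε B) * h2
  have hF : F (fun x y => (ad G x y : ℤ)) univ σ =
      -(∑ x : {x : V // ∀ B ∈ C, x ∉ B}, ∑ y : {x : V // ∀ B ∈ C, x ∉ B},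
          (ad G x.1 y.1 : ℤ) * σR x * σR y)
      - 2 * (∑ B, ∑ x, (wRb G C B x : ℤ) * ε B * σR x)
      - ∑ B, ∑ B', (wTb G C B B' : ℤ) * ε B * ε B'
      + ∑ B : {B // B ∈ C}, (2 * (((k + 1) / 2 : ℕ) : ℤ) + (eT (wTb G C) (wRb G C) B : ℤ)) := by
    unfold F
    rw [split_sum C hd]
    have e1 : ∀ x : V, ∑ y, (ad G x y : ℤ) * σ x * σ y =
        ∑ y : {x : V // ∀ B ∈ C, x ∉ B}, (ad G x y.1 : ℤ) * σ x * σ y.1 +
        ∑ B : {B // B ∈ C}, ∑ y ∈ B.1, (ad G x y : ℤ) * σ x * σ y := fun x => split_sum C hd _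
    simp_rw [e1, Finset.sum_add_distrib]
    have e2 : ∑ x : {x : V // ∀ B ∈ C, x ∉ B}, ∑ y : {x : V // ∀ B ∈ C, x ∉ B},
        (ad G x.1 y.1 : ℤ) * σ x.1 * σ y.1 = ∑ x : {x : V // ∀ B ∈ C, x ∉ B},
        ∑ y : {x : V // ∀ B ∈ C, x ∉ B}, (ad G x.1 y.1 : ℤ) * σR x * σR y := by
      apply Finset.sum_congr rfl
      intro x _
      apply Finset.sum_congr rfl
      intro y _
      rw [hσR' x, hσR' y]
    have e3 : ∑ x : {x : V // ∀ B ∈ C, x ∉ B}, ∑ B : {B // B ∈ C}, ∑ y ∈ B.1,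
        (ad G x.1 y : ℤ) * σ x.1 * σ y = ∑ B, ∑ x, (wRb G C B x : ℤ) * ε B * σR x := by
      rw [Finset.sum_comm]
      apply Finset.sum_congr rfl
      intro B _
      apply Finset.sum_congr rfl
      intro x _
      exact hRB x B
    have e4 : ∑ B : {B // B ∈ C}, ∑ x ∈ B.1, ∑ y : {x : V // ∀ B ∈ C, x ∉ B},
        (ad G x y.1 : ℤ) * σ x * σ y.1 = ∑ B, ∑ x, (wRb G C B x : ℤ) * ε B * σR x := by
      apply Finset.sum_congr rfl
      intro B _
      rw [Finset.sum_comm]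
      apply Finset.sum_congr rfl
      intro x _
      exact hBR x B
    have e5 : ∑ B : {B // B ∈ C}, ∑ x ∈ B.1, ∑ B' : {B // B ∈ C}, ∑ y ∈ B'.1,
        (ad G x y : ℤ) * σ x * σ y = ∑ B, ∑ B', (wTb G C B B' : ℤ) * ε B * ε B'
        - ∑ B : {B // B ∈ C}, (2 * (((k + 1) / 2 : ℕ) : ℤ) + (eT (wTb G C) (wRb G C) B : ℤ)) := by
      rw [← Finset.sum_sub_distrib]
      apply Finset.sum_congr rfl
      intro B _
      rw [Finset.sum_comm]
      simp_rw [hBB B]
      rw [Finset.sum_add_distrib, Finset.sum_ite_eq]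
      simp only [Finset.mem_univ, if_true]
      ring
    rw [e2, e3, e4, e5]
    simp_rw [Finset.sum_add_distrib]
    ring
  -- relate to the weights on the rest
  have hW : F (Wt (G.comap Subtype.val) (hT (wTb G C) (wRb G C))) univ σR =
      -(∑ x : {x : V // ∀ B ∈ C, x ∉ B}, ∑ y : {x : V // ∀ B ∈ C, x ∉ B},
          (ad G x.1 y.1 : ℤ) * σR x * σR y) +
      ∑ x, ∑ y, (hT (wTb G C) (wRb G C) x y : ℤ) * σR x * σR y := by
    unfold F Wt
    rw [← Finset.sum_neg_distrib, ← Finset.sum_neg_distrib, ← Finset.sum_add_distrib]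
    apply Finset.sum_congr rfl
    intro x _
    rw [← Finset.sum_neg_distrib, ← Finset.sum_neg_distrib, ← Finset.sum_add_distrib]
    apply Finset.sum_congr rfl
    intro y _
    unfold ad
    by_cases hxy : G.Adj x.1 y.1
    · simp [hxy]; ring
    · simp [hxy]
  have hcard : (Fintype.card V : ℤ) = (Fintype.card {x : V // ∀ B ∈ C, x ∉ B} : ℤ) +
      ((k : ℤ) + 1) * (Fintype.card {B // B ∈ C} : ℤ) := by
    have h1 := split_sum C hd (fun _ => (1 : ℤ))
    have h2 : ∀ B : {B // B ∈ C}, ∑ x ∈ B.1, (1 : ℤ) = k + 1 := by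
      intro B
      simp [(hTi B.1 B.2).1]
    simp_rw [h2] at h1
    simp only [Finset.sum_const, Finset.card_univ, nsmul_eq_mul, mul_one] at h1
    rw [h1]
    ring
  have hA : ∑ x : {x : V // ∀ B ∈ C, x ∉ B}, ((∑ B, wRb G C B x : ℕ) : ℤ) =
      ∑ B, ∑ x, (wRb G C B x : ℤ) := by
    rw [Finset.sum_comm]
    push_cast
    rfl
  rw [hA, hW] at hRF
  rw [hF, hcard, hsumσ]
  rw [Finset.sum_sub_distrib] at hTF
  rw [Finset.sum_add_distrib]
  rw [← Finset.mul_sum] at hTF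
  simp only [Finset.sum_const, Finset.card_univ, nsmul_eq_mul] at hTF ⊢
  set r : ℤ := (Fintype.card {x : V // ∀ B ∈ C, x ∉ B} : ℤ)
  set t : ℤ := (Fintype.card {B // B ∈ C} : ℤ)
  set P : ℤ := ∑ x : {x : V // ∀ B ∈ C, x ∉ B}, ∑ y : {x : V // ∀ B ∈ C, x ∉ B},
          (ad G x.1 y.1 : ℤ) * σR x * σR y
  set Hs : ℤ := ∑ x, ∑ y, (hT (wTb G C) (wRb G C) x y : ℤ) * σR x * σR y
  set E : ℤ := ∑ B : {B // B ∈ C}, (eT (wTb G C) (wRb G C) B : ℤ)
  set A : ℤ := ∑ B : {B // B ∈ C}, ∑ x, (wRb G C B x : ℤ)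
  set Wsum : ℤ := ∑ B, ∑ B', (wTb G C B B' : ℤ) * ε B * ε B'
  set Xs : ℤ := ∑ B, ∑ x, (wRb G C B x : ℤ) * ε B * σR x
  set m : ℤ := (((k + 1) / 2 : ℕ) : ℤ) with hm
  have hm2 : 2 * m = k + 1 := by
    rw [hm]
    exact_mod_cast hkk
  have hr0 : 0 ≤ r := by positivity
  have ht0 : 0 ≤ t := by positivity
  have hk0 : (0 : ℤ) ≤ k := by positivity
  have hTF' : ((k : ℤ) + 1) * (t * 8 - 3 * E + A + 3 * Hs) ≤
      (k + 1) * (3 * (-Wsum - 2 * Xs)) :=
    mul_le_mul_of_nonneg_left hTF (by positivity)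
  have h7 : 3 * ((k : ℤ) + 1) * (t * (2 * m)) = 3 * ((k : ℤ) + 1) * (t * (k + 1)) := by
    rw [hm2]
  linarith


end Pool.Agent.J4.H49.DK
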