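import Pool.Agent.J4.H49.DK.Reb

set_option autoImplicit false
set_option linter.unusedSectionVars false

namespace Pool.Agent.J4.H49.DK
open Finset Pool.Agent.Helper91.CK

variable {V : Type*} [DecidableEq V]

lemma rad_khin2 (c : V → ℤ) (S : Finset V) (hv : 2437 ≤ ∑ x ∈ S, c x ^ 2) :
    57 * 2 ^ S.card ≤ 2 * ∑ T ∈ S.powerset, |∑ x ∈ S, c x * sg T x| := by
  obtain ⟨h2, h4⟩ := rad_moments c S
  set v : ℤ := ∑ x ∈ S, c x ^ 2 with hvdef
  have hv' : (2437 : ℝ) ≤ (v : ℝ) := by exact_mod_cast hv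
  set l : ℝ := Real.sqrt (3 * v) with hl
  have hl2 : l ^ 2 = 3 * v := by
    rw [hl, Real.sq_sqrt (by positivity)]
  have hl0 : (85.5 : ℝ) ≤ l := by
    rw [hl]
    apply Real.le_sqrt_of_sq_le
    nlinarith
  have hlpos : 0 < l := by linarith
  have key : ∀ T ∈ S.powerset, 3 * l ^ 2 * (((∑ x ∈ S, c x * sg T x) ^ 2 : ℤ) : ℝ)
      - (((∑ x ∈ S, c x * sg T x) ^ 4 : ℤ) : ℝ) ≤
      2 * l ^ 3 * ((|∑ x ∈ S, c x * sg T x| : ℤ) : ℝ) := by
    intro T _
    have := abs_lower (((∑ x ∈ S, c x * sg T x : ℤ)) : ℝ) l hlpos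
    rw [Int.cast_abs]
    rw [Int.cast_pow, Int.cast_pow]
    exact this
  have hs := Finset.sum_le_sum key
  rw [Finset.sum_sub_distrib, ← Finset.mul_sum, ← Finset.mul_sum, ← Int.cast_sum, ← Int.cast_sum,
    ← Int.cast_sum] at hs
  rw [h2] at hs
  have h4' : (((∑ T ∈ S.powerset, (∑ x ∈ S, c x * sg T x) ^ 4 : ℤ)) : ℝ) ≤
      ((3 * 2 ^ S.card * v ^ 2 : ℤ) : ℝ) := by exact_mod_cast h4
  set E : ℝ := (((∑ T ∈ S.powerset, |∑ x ∈ S, c x * sg T x| : ℤ)) : ℝ) with hE
  have hE57 : (57 : ℝ) * 2 ^ S.card ≤ 2 * E := by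
    push_cast at hs h4'
    set p : ℝ := 2 ^ S.card with hp
    have hp0 : 0 < p := by positivity
    -- 3 l^2 p v - 3 p v^2 ≤ 2 l^3 E ; with v = l^2/3
    have hvl : (v : ℝ) = l ^ 2 / 3 := by linarith
    have h6 : 3 * l ^ 2 * (p * v) - 3 * p * v ^ 2 ≤ 2 * l ^ 3 * E := by linarith
    rw [hvl] at h6
    have h7 : l ^ 3 * (2 * l * p / 3) ≤ l ^ 3 * (2 * E) := by
      have : 3 * l ^ 2 * (p * (l ^ 2 / 3)) - 3 * p * (l ^ 2 / 3) ^ 2 = l ^ 3 * (2 * l * p / 3) := by
        ring
      linarith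
    have h8 : 2 * l * p / 3 ≤ 2 * E := le_of_mul_le_mul_left h7 (by positivity)
    have h9 : 57 * p ≤ 2 * l * p / 3 := by
      have : 85.5 * p ≤ l * p := by nlinarith
      linarith
    linarith
  have : (((57 * 2 ^ S.card : ℤ)) : ℝ) ≤
      ((2 * ∑ T ∈ S.powerset, |∑ x ∈ S, c x * sg T x| : ℤ) : ℝ) := by
    push_cast
    rw [hE] at hE57
    push_cast at hE57
    exact hE57
  exact_mod_cast this


section
variable [Fintype V]
variable {k : ℕ} {H : SimpleGraph V} [DecidableRel H.Adj] {a : V → ℕ} {h : V → V → ℕ}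

lemma cls_range2 (hk : 3000 ≤ k) (hR : RH k H a h) {S Q : Finset V} (hc : IsCls H h S Q)
    (ha : ∑ x ∈ Q, a x ≤ 79) (he : ∑ x ∈ Q, (S.filter (fun y => H.Adj x y)).card < 84 * k) :
    Q.card ≤ 99 ∨ k + 1 ≤ Q.card + 99 := by
  by_contra hcon
  push Not at hcon
  obtain ⟨h1, h2⟩ := hcon
  have h3 := cls_edges hR hc
  have h4 := cls_card_le hR hc
  zify at *
  have : 0 ≤ ((Q.card : ℤ) - 100) * ((k : ℤ) + 1 - 100 - Q.card) := by
    apply mul_nonneg <;> linarith
  nlinarith

lemma good_small2 (hk : 3000 ≤ k) (hR : RH k H a h) {S Q : Finset V} (hc : IsCls H h S Q)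
    (ha : ∑ x ∈ Q, a x ≤ 79) (hs : Q.card ≤ 99) :
    ∃ g : Finset V → ℤ, (∀ T ∈ S.powerset, Gn (Wt H h) S Q (sg T) (g T)) ∧
      2 ^ S.card * ((Q.card : ℤ) + 55) ≤ ∑ T ∈ S.powerset, g T := by
  obtain ⟨v, hv⟩ := hc.ne
  refine ⟨_, fun T _ => gn_small hR hc v hv T, ?_⟩
  rw [Finset.sum_add_distrib, ← Finset.mul_sum]
  have hav : a v ≤ 79 := by
    refine le_trans ?_ ha
    exact Finset.single_le_sum (f := a) (fun x _ => Nat.zero_le _) hv
  have h1 := cls_nz_card hR hc v hv
  have h2 := nz_lower hR v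
  have h3 : 2437 ≤ (S.filter (fun y => Wt H h v y ≠ 0)).card := by omega
  have h4 : (2437 : ℤ) ≤ ∑ x ∈ S, Wt H h v x ^ 2 := by
    calc (2437 : ℤ) ≤ ((S.filter (fun y => Wt H h v y ≠ 0)).card : ℤ) := by exact_mod_cast h3
      _ = ∑ x ∈ S.filter (fun y => Wt H h v y ≠ 0), 1 := by simp
      _ ≤ ∑ x ∈ S.filter (fun y => Wt H h v y ≠ 0), Wt H h v x ^ 2 := by
          apply Finset.sum_le_sum
          intro x hx
          rw [Finset.mem_filter] at hx
          have : 0 < Wt H h v x ^ 2 := by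
            have := hx.2
            positivity
          linarith
      _ ≤ ∑ x ∈ S, Wt H h v x ^ 2 :=
          Finset.sum_le_sum_of_subset_of_nonneg (Finset.filter_subset _ _)
            (fun x _ _ => sq_nonneg _)
  have h5 := rad_khin2 (fun x => Wt H h v x) S h4
  simp only [Finset.sum_const, Finset.card_powerset, nsmul_eq_mul]
  push_cast
  linarith

lemma good_large2 (hk : 3000 ≤ k) (hR : RH k H a h) {S Q : Finset V} (hc : IsCls H h S Q)
    (ha : ∑ x ∈ Q, a x ≤ 79) (hs : k + 1 ≤ Q.card + 99) :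
    ∃ g : Finset V → ℤ, (∀ T ∈ S.powerset, Gn (Wt H h) S Q (sg T) (g T)) ∧
      2 ^ S.card * ((Q.card : ℤ) + 55) ≤ ∑ T ∈ S.powerset, g T := by
  classical
  set Q0 := Q.filter (fun x => a x = 0) with hQ0
  have hQ0Q : Q0 ⊆ Q := Finset.filter_subset _ _
  have hh0 : ∀ v ∈ Q0, ∀ y, h v y = 0 := by
    intro v hv y
    rw [hQ0, Finset.mem_filter] at hv
    have h1 := hR.hsum v
    rw [hv.2] at h1
    have h2 : h v y ≤ ∑ y, h v y := Finset.single_le_sum (f := fun y => h v y)
      (fun x _ => Nat.zero_le _) (Finset.mem_univ y)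
    omega
  have hW0 : ∀ v ∈ Q0, ∀ y, Wt H h v y = if H.Adj v y then 1 else 0 := by
    intro v hv y
    unfold Wt
    rw [hh0 v hv y]
    simp
  have hAdj : ∀ v ∈ Q0, ∀ y ∈ Q, y ≠ v → H.Adj v y := by
    intro v hv y hy hne
    by_contra hcon
    have h1 := hc.nz v (hQ0Q hv) y hy (Ne.symm hne)
    rw [hW0 v hv y, if_neg hcon] at h1
    exact h1 rfl
  have hnAdj : ∀ v ∈ Q0, ∀ y, y ∉ S → y ∉ Q → ¬ H.Adj v y := by
    intro v hv y hyS hyQ hcon
    have h1 := hc.z v (hQ0Q hv) y hyS hyQ
    rw [hW0 v hv y, if_pos hcon] at h1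
    omega
  have hQs : (Q \ Q0).card ≤ 79 := by
    refine le_trans ?_ ha
    have : (Q \ Q0).card ≤ ∑ x ∈ Q \ Q0, a x := by
      rw [Finset.card_eq_sum_ones]
      apply Finset.sum_le_sum
      intro x hx
      rw [Finset.mem_sdiff, hQ0, Finset.mem_filter] at hx
      have : a x ≠ 0 := fun h => hx.2 ⟨hx.1, h⟩
      omega
    refine this.trans ?_
    exact Finset.sum_le_sum_of_subset Finset.sdiff_subset
  have hD1 : ∀ v ∈ Q0, ∀ w ∈ Q0, v ≠ w → Wt H h v w = 1 := by
    intro v hv w hw hne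
    rw [hW0 v hv w, if_pos (hAdj v hv w (hQ0Q hw) (Ne.symm hne))]
  set f : V → Finset V := fun v => S.filter (fun y => H.Adj v y) with hf
  -- degrees into S
  have hd : ∀ v ∈ Q0, (f v).card + Q.card = k + 1 := by
    intro v hv
    have h1 : (univ.filter (fun y => H.Adj v y)) = (Q.erase v) ∪ f v := by
      ext y
      simp only [Finset.mem_filter, Finset.mem_univ, true_and, Finset.mem_union,
        Finset.mem_erase, hf]
      constructor
      · intro hy
        by_cases hyS : y ∈ S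
        · right; exact ⟨hyS, hy⟩
        · left
          refine ⟨?_, ?_⟩
          · rintro rfl
            exact H.loopless.irrefl _ hy
          · by_contra hyQ
            exact hnAdj v hv y hyS hyQ hy
      · rintro (⟨h1, h2⟩ | ⟨h1, h2⟩)
        · exact hAdj v hv y h2 h1
        · exact h2
    have h2 := hR.hdeg v
    have hav : a v = 0 := by
      rw [hQ0, Finset.mem_filter] at hv
      exact hv.2
    have hdis : Disjoint (Q.erase v) (f v) := by
      rw [Finset.disjoint_left]
      intro y hy hy2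
      rw [Finset.mem_erase] at hy
      rw [hf] at hy2
      simp only [Finset.mem_filter] at hy2
      exact hc.disj y hy.2 hy2.1
    rw [h1, Finset.card_union_of_disjoint hdis, Finset.card_erase_of_mem (hQ0Q hv), hav] at h2
    have : 0 < Q.card := Finset.card_pos.mpr ⟨v, hQ0Q hv⟩
    omega
  rcases PL_exists f 28 Q0 with ⟨L, hLl, hL⟩ | ⟨P, hPQ, hPc, hPf⟩
  · refine ⟨_, fun T _ => gn_list hR hc f Q0 hQ0Q hD1 L hL T, ?_⟩
    rw [Finset.sum_add_distrib]
    -- the list sum
    have h1 : 2 ^ S.card * (4 * (L.length : ℤ)) ≤ ∑ T ∈ S.powerset,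
      (L.map (fun p => 2 + 2 * |∑ x ∈ S, (Wt H h p.1 x - Wt H h p.2 x) * sg T x|)).sum := by
      have key : ∀ (L : List (V × V)) (D : Finset V), D ⊆ Q0 → PL f D L →
          2 ^ S.card * (4 * (L.length : ℤ)) ≤ ∑ T ∈ S.powerset,
          (L.map (fun p => 2 + 2 * |∑ x ∈ S, (Wt H h p.1 x - Wt H h p.2 x) * sg T x|)).sum := by
        intro L
        induction L with
        | nil => intro D _ _; simp
        | cons p L ih =>
          intro D hD hPL
          obtain ⟨hp1, hp2, hpf, hPL'⟩ := hPL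
          have h1 := ih _ (((Finset.erase_subset _ _).trans (Finset.erase_subset _ _)).trans hD)
            hPL'
          simp only [List.map_cons, List.sum_cons, List.length_cons]
          rw [Finset.sum_add_distrib, Finset.sum_add_distrib, ← Finset.mul_sum]
          have hx : ∃ x ∈ S, Wt H h p.1 x ≠ Wt H h p.2 x := by
            by_contra hcon
            push Not at hcon
            apply hpf
            ext x
            simp only [hf, Finset.mem_filter]
            constructor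
            · rintro ⟨h1, h2⟩
              refine ⟨h1, ?_⟩
              have := hcon x h1
              rw [hW0 p.1 (hD hp1), hW0 p.2 (hD hp2), if_pos h2] at this
              by_contra h3
              rw [if_neg h3] at this
              omega
            · rintro ⟨h1, h2⟩
              refine ⟨h1, ?_⟩
              have := hcon x h1
              rw [hW0 p.1 (hD hp1), hW0 p.2 (hD hp2), if_pos h2] at this
              by_contra h3
              rw [if_neg h3] at this
              omega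
          obtain ⟨x, hx, hne⟩ := hx
          have h2 := rad_lower S (fun x => Wt H h p.1 x - Wt H h p.2 x) x hx
          have h3 : 1 ≤ |Wt H h p.1 x - Wt H h p.2 x| := Int.one_le_abs (sub_ne_zero.mpr hne)
          simp only [Finset.sum_const, Finset.card_powerset, nsmul_eq_mul]
          push_cast
          have hp : (0 : ℤ) < 2 ^ S.card := by positivity
          have h4 : (2 : ℤ) ^ S.card ≤ |Wt H h p.1 x - Wt H h p.2 x| * 2 ^ S.card := by nlinarith
          linarith
      exact key L Q0 (Finset.Subset.refl _) hL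
    rw [hLl] at h1 ⊢
    simp only [Finset.sum_const, Finset.card_powerset, nsmul_eq_mul]
    push_cast at h1 ⊢
    linarith
  · exfalso
    have hPQ' : P ⊆ Q := hPQ.trans hQ0Q
    have h1 : (Q0 \ P).Nonempty := by
      rw [← Finset.card_pos, Finset.card_sdiff_of_subset hPQ]
      have : Q.card = Q0.card + (Q \ Q0).card := by
        rw [Finset.card_sdiff_of_subset hQ0Q]
        have := Finset.card_le_card hQ0Q
        omega
      omega
    obtain ⟨v, hv⟩ := h1
    have hvQ0 := (Finset.mem_sdiff.mp hv).1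
    have hdv := hd v hvQ0
    have hdis : Disjoint Q (f v) := by
      rw [Finset.disjoint_left]
      intro y hy hy2
      rw [hf] at hy2
      simp only [Finset.mem_filter] at hy2
      exact hc.disj y hy hy2.1
    have hB := hR.hnt (Q ∪ f v) (by
      rw [Finset.card_union_of_disjoint hdis]
      omega)
    have hsub : (Q ∪ f v).filter (fun x => ∃ y ∈ Q ∪ f v, y ≠ x ∧ ¬ H.Adj x y) ⊆
        (Q \ Q0) ∪ P ∪ f v := by
      intro x hx
      rw [Finset.mem_filter] at hx
      obtain ⟨hxB, y, hyB, hyx, hna⟩ := hx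
      by_contra hcon
      simp only [Finset.mem_union, Finset.mem_sdiff] at hcon hxB
      push Not at hcon
      have hxQ : x ∈ Q := by
        rcases hxB with h | h
        · exact h
        · exact absurd h hcon.2
      have hxQ0 : x ∈ Q0 := hcon.1.1 hxQ
      have hxf : f x = f v := hPf x (Finset.mem_sdiff.mpr ⟨hxQ0, hcon.1.2⟩) v hv
      rw [Finset.mem_union] at hyB
      rcases hyB with h | h
      · exact hna (hAdj x hxQ0 y h hyx)
      · rw [← hxf, hf] at h
        simp only [Finset.mem_filter] at h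
        exact hna h.2
    have h2 := Finset.card_le_card hsub
    have h3 := Finset.card_union_le ((Q \ Q0) ∪ P) (f v)
    have h4 := Finset.card_union_le (Q \ Q0) P
    omega


end

end Pool.Agent.J4.H49.DK
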