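import Pool.Agent.J4.H49.DK.Flip

set_option autoImplicit false
set_option linter.unusedSectionVars false

namespace Pool.Agent.J4.H49.DK
open Finset Pool.Agent.Helper91.CK

section reg
variable {V : Type*} [Fintype V] [DecidableEq V]
variable {k : ℕ} {G : SimpleGraph V} [DecidableRel G.Adj]

lemma min_natAbs {P : (V → ℤ) → Prop} (hP : ∃ σ, P σ) :
    ∃ σ, P σ ∧ ∀ τ, P τ → (∑ x, σ x).natAbs ≤ (∑ x, τ x).natAbs := by
  classical
  have h : ∃ n : ℕ, ∃ σ, P σ ∧ (∑ x, σ x).natAbs = n := by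
    obtain ⟨σ, h⟩ := hP
    exact ⟨_, σ, h, rfl⟩
  obtain ⟨σ, h1, h2⟩ := Nat.find_spec h
  refine ⟨σ, h1, fun τ hτ => ?_⟩
  rw [h2]
  exact Nat.find_min' h ⟨τ, hτ, rfl⟩

lemma sum_plus_const {σ : V → ℤ} (c : ℤ) :
    ∑ x, (1 + σ x) * c = ((Fintype.card V : ℤ) + ∑ x, σ x) * c := by
  rw [← Finset.sum_mul, Finset.sum_add_distrib]
  simp

lemma sum_minus_const {σ : V → ℤ} (c : ℤ) :
    ∑ x, (1 - σ x) * c = ((Fintype.card V : ℤ) - ∑ x, σ x) * c := by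
  rw [← Finset.sum_mul, Finset.sum_sub_distrib]
  simp

/-- a lower bound on the positive side gives a lower bound of the sum -/
lemma plus_ge {σ : V → ℤ} (hσ : Sg σ) (f : V → ℤ) (c : ℤ) (h : ∀ x, σ x = 1 → c ≤ f x) :
    ((Fintype.card V : ℤ) + ∑ x, σ x) * c ≤ ∑ x, (1 + σ x) * f x := by
  rw [← sum_plus_const]
  apply Finset.sum_le_sum
  intro x _
  rcases hσ x with h1 | h1
  · rw [h1]
    have := h x h1
    linarith
  · rw [h1]
    simp

lemma minus_ge {σ : V → ℤ} (hσ : Sg σ) (f : V → ℤ) (c : ℤ) (h : ∀ x, σ x = -1 → c ≤ f x) :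
    ((Fintype.card V : ℤ) - ∑ x, σ x) * c ≤ ∑ x, (1 - σ x) * f x := by
  rw [← sum_minus_const]
  apply Finset.sum_le_sum
  intro x _
  rcases hσ x with h1 | h1
  · rw [h1]
    simp
  · rw [h1]
    have := h x h1
    linarith

lemma sum_neg_fun (σ : V → ℤ) : ∑ x, (fun x => -σ x) x = -∑ x, σ x := by
  simp

/-- even degree: every sign vector can be balanced without loss up to a cap -/
lemma rb_even (hk : 4 ≤ k) (hke : Even k) (hn : k + 1 ≤ Fintype.card V)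
    (hreg : ∀ v, ∑ y, ad G v y = k) (F0 : ℤ) (hF0 : F0 ≤ 2 * (Fintype.card V : ℤ) + k)
    (σ0 : V → ℤ) (h0 : Sg σ0) (h1 : F0 ≤ F (A G) univ σ0) :
    ∃ σ : V → ℤ, Sg σ ∧ F0 ≤ F (A G) univ σ ∧ 0 ≤ ∑ x, σ x ∧ ∑ x, σ x ≤ 1 := by
  obtain ⟨σ, ⟨hs, hF⟩, hmin⟩ := min_natAbs (P := fun σ : V → ℤ => Sg σ ∧ F0 ≤ F (A G) univ σ)
    ⟨σ0, h0, h1⟩
  -- make the sum nonnegative
  obtain ⟨σ, hs, hF, hmin, hpos⟩ : ∃ σ : V → ℤ, Sg σ ∧ F0 ≤ F (A G) univ σ ∧
      (∀ τ, Sg τ ∧ F0 ≤ F (A G) univ τ → (∑ x, σ x).natAbs ≤ (∑ x, τ x).natAbs) ∧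
      0 ≤ ∑ x, σ x := by
    rcases le_total 0 (∑ x, σ x) with h | h
    · exact ⟨σ, hs, hF, hmin, h⟩
    · refine ⟨fun x => -σ x, neg_Sg hs, by rw [neg_F]; exact hF, ?_, ?_⟩
      · intro τ hτ
        rw [sum_neg_fun, Int.natAbs_neg]
        exact hmin τ hτ
      · rw [sum_neg_fun]
        linarith
  refine ⟨σ, hs, hF, hpos, ?_⟩
  by_contra hD
  push Not at hD
  set D := ∑ x, σ x with hDdef
  set n : ℤ := (Fintype.card V : ℤ) with hn'
  have hnk : (k : ℤ) + 1 ≤ n := by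
    rw [hn']
    exact_mod_cast hn
  have hk4 : (4 : ℤ) ≤ k := by exact_mod_cast hk
  have hx : ∀ x, σ x = 1 → F (A G) univ σ - F0 < 4 * loc (A G) σ x := by
    intro x hx
    by_contra hc
    push Not at hc
    have h2 := hmin (flip {x} σ) ⟨flip_Sg _ hs, by
      rw [flip_one (A G) A_symm A_self]
      linarith⟩
    rw [flip_one_sum, hx, ← hDdef] at h2
    omega
  set y := F (A G) univ σ - F0 with hy
  have hy0 : 0 ≤ y := by linarith
  have h2 : ∀ x, σ x = 1 → 2 ≤ loc (A G) σ x := by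
    intro x hx'
    have h3 := hx x hx'
    obtain ⟨c, hc⟩ := loc_parity hreg hs x
    obtain ⟨e, he⟩ := hke
    have : (k : ℤ) = e + e := by exact_mod_cast he
    omega
  have h3 := plus_ge hs (loc (A G) σ) 2 h2
  have h4 := plus_ge hs (fun x => 4 * loc (A G) σ x) (y + 1) (fun x hx' => by
    have := hx x hx'
    linarith)
  have h5 : ∑ x, (1 + σ x) * (4 * loc (A G) σ x) = 4 * ∑ x, (1 + σ x) * loc (A G) σ x := by
    rw [Finset.mul_sum]
    apply Finset.sum_congr rfl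
    intro x _
    ring
  rw [h5] at h4
  rw [reg_plus hreg hs, ← hDdef] at h3 h4
  have h6 : F (A G) univ σ = F0 + y := by rw [hy]; ring
  rw [h6] at h3 h4
  rw [← hn'] at h3 h4
  have hkD : (k : ℤ) * 2 ≤ k * D := mul_le_mul_of_nonneg_left (by linarith) (by linarith)
  have hy4 : (k : ℤ) + 4 ≤ y := by linarith
  have h7 : (n + 2) * (y + 1) ≤ (n + D) * (y + 1) :=
    mul_le_mul_of_nonneg_right (by linarith) (by linarith)
  have h8 : (n - 2) * ((k : ℤ) + 4) ≤ (n - 2) * y :=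
    mul_le_mul_of_nonneg_left hy4 (by linarith)
  have h9 : 0 ≤ (n - (k + 1)) * ((k : ℤ) - 3) := mul_nonneg (by linarith) (by linarith)
  have h10 : 0 ≤ ((k : ℤ) - 4) * k := mul_nonneg (by linarith) (by linarith)
  linarith

/-- odd degree: balancing costs at most `2` for every unit of imbalance -/
lemma rb_odd (hk : 3 ≤ k) (hko : Odd k) (hn : 8 ≤ Fintype.card V)
    (hne : Even (Fintype.card V))
    (hreg : ∀ v, ∑ y, ad G v y = k) (F0 : ℤ) (hF0 : F0 ≤ 2 * (Fintype.card V : ℤ))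
    (σ0 : V → ℤ) (h0 : Sg σ0) (h1 : F0 + 2 * |∑ x, σ0 x| ≤ F (A G) univ σ0) :
    ∃ σ : V → ℤ, Sg σ ∧ F0 ≤ F (A G) univ σ ∧ ∑ x, σ x = 0 := by
  obtain ⟨σ, ⟨hs, hF⟩, hmin⟩ := min_natAbs
    (P := fun σ : V → ℤ => Sg σ ∧ F0 + 2 * |∑ x, σ x| ≤ F (A G) univ σ) ⟨σ0, h0, h1⟩
  obtain ⟨σ, hs, hF, hmin, hpos⟩ : ∃ σ : V → ℤ, Sg σ ∧ F0 + 2 * |∑ x, σ x| ≤ F (A G) univ σ ∧
      (∀ τ, Sg τ ∧ F0 + 2 * |∑ x, τ x| ≤ F (A G) univ τ →
        (∑ x, σ x).natAbs ≤ (∑ x, τ x).natAbs) ∧ 0 ≤ ∑ x, σ x := by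
    rcases le_total 0 (∑ x, σ x) with h | h
    · exact ⟨σ, hs, hF, hmin, h⟩
    · refine ⟨fun x => -σ x, neg_Sg hs, ?_, ?_, ?_⟩
      · rw [neg_F, sum_neg_fun, abs_neg]
        exact hF
      · intro τ hτ
        rw [sum_neg_fun, Int.natAbs_neg]
        exact hmin τ hτ
      · rw [sum_neg_fun]
        linarith
  refine ⟨σ, hs, ?_, ?_⟩
  · have := abs_nonneg (∑ x, σ x)
    linarith
  by_contra hD
  set D := ∑ x, σ x with hDdef
  set n : ℤ := (Fintype.card V : ℤ) with hn'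
  have hn8 : (8 : ℤ) ≤ n := by
    rw [hn']
    exact_mod_cast hn
  have hk3 : (3 : ℤ) ≤ k := by exact_mod_cast hk
  have hD2 : 2 ≤ D := by
    obtain ⟨c, hc⟩ := sum_parity hs
    obtain ⟨e, he⟩ := hne
    have : n = e + e := by rw [hn']; exact_mod_cast he
    rw [← hDdef, ← hn', this] at hc
    omega
  have hx : ∀ x, σ x = 1 → F (A G) univ σ - F0 - 2 * D + 4 < 4 * loc (A G) σ x := by
    intro x hx
    by_contra hc
    push Not at hc
    have h2 := hmin (flip {x} σ) ⟨flip_Sg _ hs, by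
      rw [flip_one (A G) A_symm A_self, flip_one_sum, hx, ← hDdef, abs_of_nonneg (by linarith)]
      linarith⟩
    rw [flip_one_sum, hx, ← hDdef] at h2
    omega
  rw [abs_of_nonneg hpos] at hF
  set y := F (A G) univ σ - F0 - 2 * D with hy
  have hy0 : 0 ≤ y := by linarith
  have h2 : ∀ x, σ x = 1 → 3 ≤ loc (A G) σ x := by
    intro x hx'
    have h3 := hx x hx'
    obtain ⟨c, hc⟩ := loc_parity hreg hs x
    obtain ⟨e, he⟩ := hko
    have : (k : ℤ) = 2 * e + 1 := by exact_mod_cast he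
    omega
  have h3 := plus_ge hs (loc (A G) σ) 3 h2
  have h4 := plus_ge hs (fun x => 4 * loc (A G) σ x) (y + 5) (fun x hx' => by
    have := hx x hx'
    linarith)
  have h5 : ∑ x, (1 + σ x) * (4 * loc (A G) σ x) = 4 * ∑ x, (1 + σ x) * loc (A G) σ x := by
    rw [Finset.mul_sum]
    apply Finset.sum_congr rfl
    intro x _
    ring
  rw [h5] at h4
  rw [reg_plus hreg hs, ← hDdef] at h3 h4
  have h6 : F (A G) univ σ = F0 + y + 2 * D := by rw [hy]; ring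
  rw [h6] at h3 h4
  have h7 : n + ((k : ℤ) + 1) * D ≤ y := by nlinarith
  have h8 : (n + D) * (y + 5) ≤ 4 * (2 * n + y + 2 * D - k * D) := by linarith
  have h9 : 0 ≤ (n - 8) * y := mul_nonneg (by linarith) hy0
  have h10 : 0 ≤ D * y := mul_nonneg (by linarith) hy0
  have h11 : 0 ≤ ((k : ℤ) - 3) * D := mul_nonneg (by linarith) (by linarith)
  nlinarith

end reg

end Pool.Agent.J4.H49.DK
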