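import Pool.Agent.J4.H49.DK.Reb

set_option autoImplicit false
set_option linter.unusedSectionVars false

namespace Pool.Agent.J4.H49.DK
open Finset Pool.Agent.Helper91.CK

variable {V : Type*} [Fintype V] [DecidableEq V]

/-- plus side -/
def Ps (σ : V → ℤ) : Finset V := univ.filter (fun x => σ x = 1)

/-- minus side -/
def Ns (σ : V → ℤ) : Finset V := univ.filter (fun x => σ x = -1)

/-- a maximum cut of a `2K`-regular graph, with half of the local contributions -/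
structure Mx (G : SimpleGraph V) [DecidableRel G.Adj] (K : ℕ) (σ : V → ℤ) (l : V → ℤ) : Prop where
  hreg : ∀ v, ∑ y, ad G v y = 2 * K
  hs : Sg σ
  hl : ∀ x, loc (A G) σ x = 2 * l x
  hmax : ∀ τ, Sg τ → F (A G) univ τ ≤ F (A G) univ σ

variable {K : ℕ} {G : SimpleGraph V} [DecidableRel G.Adj] {σ l : V → ℤ}

lemma mem_Ps {x : V} : x ∈ Ps σ ↔ σ x = 1 := by simp [Ps]
lemma mem_Ns {x : V} : x ∈ Ns σ ↔ σ x = -1 := by simp [Ns]

lemma PN_disj : Disjoint (Ps σ) (Ns σ) := by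
  rw [Finset.disjoint_left]
  intro x hx hy
  rw [mem_Ps] at hx
  rw [mem_Ns] at hy
  omega

lemma PN_union (hs : Sg σ) : Ps σ ∪ Ns σ = univ := by
  apply Finset.eq_univ_of_forall
  intro x
  rw [Finset.mem_union, mem_Ps, mem_Ns]
  exact hs x

lemma sum_PN (hs : Sg σ) (f : V → ℤ) : ∑ x, f x = ∑ x ∈ Ps σ, f x + ∑ x ∈ Ns σ, f x := by
  rw [← PN_union hs, Finset.sum_union PN_disj]

lemma card_PN (hs : Sg σ) : ((Ps σ).card : ℤ) + (Ns σ).card = Fintype.card V := by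
  have := sum_PN hs (fun _ => (1 : ℤ))
  simp only [Finset.sum_const, Finset.card_univ, nsmul_eq_mul, mul_one] at this
  linarith

lemma card_diff (hs : Sg σ) : ((Ps σ).card : ℤ) - (Ns σ).card = ∑ x, σ x := by
  rw [sum_PN hs σ]
  have h1 : ∑ x ∈ Ps σ, σ x = ∑ x ∈ Ps σ, (1 : ℤ) :=
    Finset.sum_congr rfl (fun x hx => mem_Ps.mp hx)
  have h2 : ∑ x ∈ Ns σ, σ x = ∑ x ∈ Ns σ, (-1 : ℤ) :=
    Finset.sum_congr rfl (fun x hx => mem_Ns.mp hx)
  rw [h1, h2]
  simp
  ring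

lemma deg_sum (hM : Mx G K σ l) (x : V) :
    ∑ y ∈ Ps σ, A G x y + ∑ y ∈ Ns σ, A G x y = 2 * K := by
  rw [← sum_PN hM.hs]
  have := A_row hM.hreg x
  rw [this]
  push_cast
  ring

lemma loc_PN (hM : Mx G K σ l) (x : V) :
    2 * l x = σ x * (∑ y ∈ Ns σ, A G x y - ∑ y ∈ Ps σ, A G x y) := by
  rw [← hM.hl x]
  unfold loc
  rw [sum_PN hM.hs]
  have h1 : ∑ y ∈ Ps σ, A G x y * σ x * σ y = σ x * ∑ y ∈ Ps σ, A G x y := by
    rw [Finset.mul_sum]
    apply Finset.sum_congr rfl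
    intro y hy
    rw [mem_Ps.mp hy]; ring
  have h2 : ∑ y ∈ Ns σ, A G x y * σ x * σ y = -(σ x * ∑ y ∈ Ns σ, A G x y) := by
    rw [Finset.mul_sum, ← Finset.sum_neg_distrib]
    apply Finset.sum_congr rfl
    intro y hy
    rw [mem_Ns.mp hy]; ring
  rw [h1, h2]
  ring

lemma dPP (hM : Mx G K σ l) {x : V} (hx : x ∈ Ps σ) : ∑ y ∈ Ps σ, A G x y = K - l x := by
  have h1 := deg_sum hM x
  have h2 := loc_PN hM x
  rw [mem_Ps.mp hx] at h2
  linarith

lemma dPN (hM : Mx G K σ l) {x : V} (hx : x ∈ Ps σ) : ∑ y ∈ Ns σ, A G x y = K + l x := by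
  have h1 := deg_sum hM x
  have h2 := loc_PN hM x
  rw [mem_Ps.mp hx] at h2
  linarith

lemma dNP (hM : Mx G K σ l) {x : V} (hx : x ∈ Ns σ) : ∑ y ∈ Ps σ, A G x y = K + l x := by
  have h1 := deg_sum hM x
  have h2 := loc_PN hM x
  rw [mem_Ns.mp hx] at h2
  linarith

lemma dNN (hM : Mx G K σ l) {x : V} (hx : x ∈ Ns σ) : ∑ y ∈ Ns σ, A G x y = K - l x := by
  have h1 := deg_sum hM x
  have h2 := loc_PN hM x
  rw [mem_Ns.mp hx] at h2
  linarith

/-- optimality for sets -/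
lemma opt (hM : Mx G K σ l) (X : Finset V) : F (A G) X σ ≤ 2 * ∑ x ∈ X, l x := by
  have h1 := hM.hmax (flip X σ) (flip_Sg X hM.hs)
  rw [flip_F (A G) A_symm] at h1
  have h2 : ∑ x ∈ X, loc (A G) σ x = 2 * ∑ x ∈ X, l x := by
    rw [Finset.mul_sum]
    exact Finset.sum_congr rfl (fun x _ => hM.hl x)
  linarith

lemma l_nonneg (hM : Mx G K σ l) (x : V) : 0 ≤ l x := by
  have := opt hM {x}
  simp [F, A_self] at this
  linarith

lemma opt_pair (hM : Mx G K σ l) (R S : Finset V) (hR : R ⊆ Ps σ) (hS : S ⊆ Ns σ) :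
    2 * ∑ x ∈ R, ∑ y ∈ S, A G x y - ∑ x ∈ R, ∑ y ∈ R, A G x y - ∑ x ∈ S, ∑ y ∈ S, A G x y ≤
      2 * ∑ x ∈ R, l x + 2 * ∑ x ∈ S, l x := by
  have hd : Disjoint R S := Finset.disjoint_of_subset_left hR
    (Finset.disjoint_of_subset_right hS PN_disj)
  have h1 := opt hM (R ∪ S)
  rw [Finset.sum_union hd, F_union (A G) A_symm R S hd] at h1
  have e1 : F (A G) R σ = -∑ x ∈ R, ∑ y ∈ R, A G x y := by
    unfold F
    congr 1
    apply Finset.sum_congr rfl
    intro x hx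
    apply Finset.sum_congr rfl
    intro y hy
    rw [mem_Ps.mp (hR hx), mem_Ps.mp (hR hy)]; ring
  have e2 : F (A G) S σ = -∑ x ∈ S, ∑ y ∈ S, A G x y := by
    unfold F
    congr 1
    apply Finset.sum_congr rfl
    intro x hx
    apply Finset.sum_congr rfl
    intro y hy
    rw [mem_Ns.mp (hS hx), mem_Ns.mp (hS hy)]; ring
  have e3 : cr (A G) R S σ σ = -∑ x ∈ R, ∑ y ∈ S, A G x y := by
    unfold cr
    rw [← Finset.sum_neg_distrib]
    apply Finset.sum_congr rfl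
    intro x hx
    rw [← Finset.sum_neg_distrib]
    apply Finset.sum_congr rfl
    intro y hy
    rw [mem_Ps.mp (hR hx), mem_Ns.mp (hS hy)]; ring
  rw [e1, e2, e3] at h1
  linarith

lemma sum_lP (hM : Mx G K σ l) :
    4 * ∑ x ∈ Ps σ, l x = F (A G) univ σ - 2 * K * ∑ x, σ x := by
  have h1 := reg_plus hM.hreg hM.hs
  rw [sum_PN hM.hs (fun x => (1 + σ x) * loc (A G) σ x)] at h1
  have h2 : ∑ x ∈ Ps σ, (1 + σ x) * loc (A G) σ x = 4 * ∑ x ∈ Ps σ, l x := by
    rw [Finset.mul_sum]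
    apply Finset.sum_congr rfl
    intro x hx
    rw [mem_Ps.mp hx, hM.hl]; ring
  have h3 : ∑ x ∈ Ns σ, (1 + σ x) * loc (A G) σ x = 0 := by
    apply Finset.sum_eq_zero
    intro x hx
    rw [mem_Ns.mp hx]; ring
  rw [h2, h3] at h1
  push_cast at h1
  linarith

lemma sum_lN (hM : Mx G K σ l) :
    4 * ∑ x ∈ Ns σ, l x = F (A G) univ σ + 2 * K * ∑ x, σ x := by
  have h1 := reg_minus hM.hreg hM.hs
  rw [sum_PN hM.hs (fun x => (1 - σ x) * loc (A G) σ x)] at h1
  have h2 : ∑ x ∈ Ns σ, (1 - σ x) * loc (A G) σ x = 4 * ∑ x ∈ Ns σ, l x := by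
    rw [Finset.mul_sum]
    apply Finset.sum_congr rfl
    intro x hx
    rw [mem_Ns.mp hx, hM.hl]; ring
  have h3 : ∑ x ∈ Ps σ, (1 - σ x) * loc (A G) σ x = 0 := by
    apply Finset.sum_eq_zero
    intro x hx
    rw [mem_Ps.mp hx]; ring
  rw [h2, h3] at h1
  push_cast at h1
  linarith

/-- integer non-adjacency -/
def M (G : SimpleGraph V) [DecidableRel G.Adj] (x y : V) : ℤ := (ms G x y : ℤ)

lemma M_symm (x y : V) : M G x y = M G y x := by unfold M; rw [ms_symm]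
lemma M_self (x : V) : M G x x = 0 := by unfold M; rw [ms_self]; rfl
lemma M_nonneg (x y : V) : 0 ≤ M G x y := by unfold M; positivity
lemma M_le (x y : V) : M G x y ≤ 1 := by
  unfold M ms
  split_ifs <;> simp

lemma AM (x y : V) : A G x y + M G x y + (if x = y then 1 else 0) = 1 := by
  unfold A M ad ms
  by_cases h : x = y
  · subst h; simp
  · by_cases h2 : G.Adj x y <;> simp [h, h2]

lemma M_one {x y : V} (h : x ≠ y) (h2 : ¬ G.Adj x y) : M G x y = 1 := by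
  simp [M, ms, h, h2]

lemma M_ne {x y : V} (h : M G x y = 1) : x ≠ y := by
  rintro rfl
  rw [M_self] at h
  omega

lemma A_of_M {x y : V} (h : M G x y = 1) : A G x y = 0 := by
  have := AM (G := G) x y
  rw [if_neg (M_ne h)] at this
  linarith

lemma A_or_M {x y : V} (h : x ≠ y) : A G x y = 1 ∧ M G x y = 0 ∨ A G x y = 0 ∧ M G x y = 1 := by
  by_cases h2 : G.Adj x y
  · left
    have := AM (G := G) x y
    rw [if_neg h, A_one h2] at this
    exact ⟨A_one h2, by linarith⟩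
  · right
    exact ⟨A_zero h2, M_one h h2⟩

lemma sum_AM (R : Finset V) (x : V) :
    ∑ y ∈ R, A G x y + ∑ y ∈ R, M G x y + (if x ∈ R then 1 else 0) = R.card := by
  have h1 : ∑ y ∈ R, (A G x y + M G x y + (if x = y then 1 else 0)) = ∑ y ∈ R, (1 : ℤ) :=
    Finset.sum_congr rfl (fun y _ => AM x y)
  rw [Finset.sum_add_distrib, Finset.sum_add_distrib, Finset.sum_ite_eq] at h1
  simpa using h1

section sizes
variable {J : ℕ}

lemma mPP (hM : Mx G K σ l) (hP : (Ps σ).card = K + J + 1) {x : V} (hx : x ∈ Ps σ) :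
    ∑ y ∈ Ps σ, M G x y = J + l x := by
  have h1 := sum_AM (G := G) (Ps σ) x
  rw [if_pos hx, dPP hM hx, hP] at h1
  push_cast at h1
  linarith

lemma mPN (hM : Mx G K σ l) (hN : (Ns σ).card = K + J) {x : V} (hx : x ∈ Ps σ) :
    ∑ y ∈ Ns σ, M G x y = J - l x := by
  have h1 := sum_AM (G := G) (Ns σ) x
  rw [if_neg (Finset.disjoint_left.mp PN_disj hx), dPN hM hx, hN] at h1
  push_cast at h1
  linarith

lemma l_le (hM : Mx G K σ l) (hN : (Ns σ).card = K + J) {x : V} (hx : x ∈ Ps σ) : l x ≤ J := by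
  have h1 := mPN hM hN hx
  have h2 : 0 ≤ ∑ y ∈ Ns σ, M G x y := Finset.sum_nonneg (fun y _ => M_nonneg x y)
  linarith

/-- a small set on the larger side spans few non-edges -/
lemma key (hM : Mx G K σ l) (hN : (Ns σ).card = K + J) (R : Finset V) (hR : R ⊆ Ps σ)
    (hb : (R.card : ℤ) * (1 + J) - ∑ x ∈ R, l x ≤ (((Ns σ).filter (fun y => l y = 1)).card : ℤ)) :
    ∑ x ∈ R, ∑ y ∈ R, M G x y ≤ 2 * ∑ x ∈ R, l x := by
  set Y := (Ns σ).filter (fun y => l y = 1) with hY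
  -- the good vertices
  set Z := Y.filter (fun y => ∀ x ∈ R, G.Adj x y) with hZ
  have hYN : Y ⊆ Ns σ := Finset.filter_subset _ _
  have h1 : (Y.card : ℤ) ≤ Z.card + ∑ x ∈ R, ∑ y ∈ Y, M G x y := by
    rw [Finset.sum_comm]
    have e1 : (Y.card : ℤ) = ∑ y ∈ Y, (1 : ℤ) := by simp
    have e2 : (Z.card : ℤ) = ∑ y ∈ Y, (if ∀ x ∈ R, G.Adj x y then (1 : ℤ) else 0) := by
      rw [hZ, Finset.card_filter]
      push_cast
      rfl
    rw [e1, e2, ← Finset.sum_add_distrib]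
    apply Finset.sum_le_sum
    intro y hy
    by_cases h : ∀ x ∈ R, G.Adj x y
    · rw [if_pos h]
      have : 0 ≤ ∑ x ∈ R, M G x y := Finset.sum_nonneg (fun x _ => M_nonneg x y)
      linarith
    · rw [if_neg h]
      push Not at h
      obtain ⟨x, hx, hxy⟩ := h
      have hne : x ≠ y := by
        rintro rfl
        exact Finset.disjoint_left.mp PN_disj (hR hx) (hYN hy)
      have h2 : M G x y ≤ ∑ x ∈ R, M G x y :=
        Finset.single_le_sum (f := fun x => M G x y) (fun x _ => M_nonneg x y) hx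
      rw [M_one hne hxy] at h2
      linarith
  have h2 : ∑ x ∈ R, ∑ y ∈ Y, M G x y ≤ ∑ x ∈ R, ((J : ℤ) - l x) := by
    apply Finset.sum_le_sum
    intro x hx
    rw [← mPN hM hN (hR hx)]
    exact Finset.sum_le_sum_of_subset_of_nonneg hYN (fun y _ _ => M_nonneg x y)
  rw [Finset.sum_sub_distrib, Finset.sum_const, nsmul_eq_mul] at h2
  have h3 : (R.card : ℤ) ≤ Z.card := by linarith
  obtain ⟨S, hS, hSc⟩ := Finset.exists_subset_card_eq (show R.card ≤ Z.card by exact_mod_cast h3)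
  have hSN : S ⊆ Ns σ := fun y hy => hYN (Finset.mem_filter.mp (hS hy)).1
  have h4 := opt_pair hM R S hR hSN
  have h5 : ∑ x ∈ R, ∑ y ∈ S, A G x y = (R.card : ℤ) * R.card := by
    have : ∀ x ∈ R, ∑ y ∈ S, A G x y = R.card := by
      intro x hx
      have e : ∀ y ∈ S, A G x y = 1 := fun y hy => A_one ((Finset.mem_filter.mp (hS hy)).2 x hx)
      rw [Finset.sum_congr rfl e]
      simp [hSc]
    rw [Finset.sum_congr rfl this]
    simp
  have h6 : ∑ x ∈ R, ∑ y ∈ R, A G x y + ∑ x ∈ R, ∑ y ∈ R, M G x y + R.card =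
      (R.card : ℤ) * R.card := by
    rw [← Finset.sum_add_distrib]
    have : ∀ x ∈ R, (∑ y ∈ R, A G x y + ∑ y ∈ R, M G x y) = R.card - 1 := by
      intro x hx
      have := sum_AM (G := G) R x
      rw [if_pos hx] at this
      linarith
    rw [Finset.sum_congr rfl this]
    simp
  have h7 : ∑ x ∈ S, ∑ y ∈ S, A G x y + S.card ≤ (R.card : ℤ) * R.card := by
    have : ∀ x ∈ S, ∑ y ∈ S, A G x y ≤ (R.card : ℤ) - 1 := by
      intro x hx
      have := sum_AM (G := G) S x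
      rw [if_pos hx, hSc] at this
      have h8 : 0 ≤ ∑ y ∈ S, M G x y := Finset.sum_nonneg (fun y _ => M_nonneg x y)
      linarith
    have h9 := Finset.sum_le_sum this
    rw [Finset.sum_const, hSc, nsmul_eq_mul] at h9
    rw [hSc]
    linarith
  have h8 : ∑ x ∈ S, l x = R.card := by
    have e : ∀ y ∈ S, l y = 1 := fun y hy =>
      (Finset.mem_filter.mp (Finset.mem_filter.mp (hS hy)).1).2
    rw [Finset.sum_congr rfl e]
    simp [hSc]
  rw [h5, h8] at h4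
  rw [hSc] at h7
  linarith

end sizes

/-- adding a vertex with a non-edge to the set -/
lemma M_insert (R : Finset V) (a b : V) (ha : a ∉ R) (hb : b ∈ R) (h : M G a b = 1) :
    ∑ x ∈ R, ∑ y ∈ R, M G x y + 2 ≤ ∑ x ∈ insert a R, ∑ y ∈ insert a R, M G x y := by
  rw [Finset.sum_insert ha, Finset.sum_insert ha, M_self]
  simp_rw [Finset.sum_insert ha, Finset.sum_add_distrib]
  have h1 : ∑ x ∈ R, M G x a = ∑ x ∈ R, M G a x := Finset.sum_congr rfl (fun x _ => M_symm x a)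
  rw [h1]
  have h2 : M G a b ≤ ∑ x ∈ R, M G a x :=
    Finset.single_le_sum (f := fun x => M G a x) (fun x _ => M_nonneg a x) hb
  linarith

end Pool.Agent.J4.H49.DK
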