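import Pool.Agent.J4.H49.DK.Small

set_option autoImplicit false
set_option linter.unusedSectionVars false

namespace Pool.Agent.J4.H49.DK
open Finset Pool.Agent.Helper91.CK

variable {V : Type*} [Fintype V] [DecidableEq V]

/-- the first case: no vertex of the smaller side is free -/
structure CA (G : SimpleGraph V) [DecidableRel G.Adj] (K J : ℕ) (σ l : V → ℤ) : Prop where
  hM : Mx G K σ l
  hP : (Ps σ).card = K + J + 1
  hN : (Ns σ).card = K + J
  hJ : 1 ≤ J
  hK : 500 ≤ K
  h0 : ∀ y ∈ Ns σ, 1 ≤ l y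
  hT : 6 * ∑ x ∈ Ps σ, l x ≤ 4 * K + J + 10

variable {K J : ℕ} {G : SimpleGraph V} [DecidableRel G.Adj] {σ l : V → ℤ}

/-- the free vertices of the larger side -/
def X0 (σ l : V → ℤ) : Finset V := (Ps σ).filter (fun x => l x = 0)

lemma mem_X0 {x : V} : x ∈ X0 σ l ↔ x ∈ Ps σ ∧ l x = 0 := by simp [X0]

lemma sumN (h : CA G K J σ l) : ∑ x ∈ Ns σ, l x = ∑ x ∈ Ps σ, l x + K := by
  have h1 := sum_lP h.hM
  have h2 := sum_lN h.hM
  have h3 := card_diff h.hM.hs
  rw [h.hP, h.hN] at h3
  have h4 : ∑ x, σ x = 1 := by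
    rw [← h3]; push_cast; ring
  rw [h4] at h1 h2
  linarith

lemma b1_ge (h : CA G K J σ l) :
    2 * (K : ℤ) + 11 * J - 10 ≤ 6 * (((Ns σ).filter (fun y => l y = 1)).card : ℤ) := by
  have h1 : 2 * (((Ns σ).card : ℕ) : ℤ) - (((Ns σ).filter (fun y => l y = 1)).card : ℤ) ≤
      ∑ x ∈ Ns σ, l x := by
    rw [Finset.card_filter]
    push_cast
    have : 2 * (((Ns σ).card : ℕ) : ℤ) = ∑ y ∈ Ns σ, (2 : ℤ) := by simp; ring
    rw [this, ← Finset.sum_sub_distrib]
    apply Finset.sum_le_sum
    intro y hy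
    have := h.h0 y hy
    split_ifs <;> omega
  rw [sumN h, h.hN] at h1
  have := h.hT
  push_cast at h1
  linarith

lemma J_le (h : CA G K J σ l) : 5 * (J : ℤ) ≤ 4 * K + 10 := by
  have h1 : (((Ns σ).card : ℕ) : ℤ) ≤ ∑ x ∈ Ns σ, l x := by
    have : (((Ns σ).card : ℕ) : ℤ) = ∑ y ∈ Ns σ, (1 : ℤ) := by simp
    rw [this]
    exact Finset.sum_le_sum h.h0
  rw [sumN h, h.hN] at h1
  have := h.hT
  push_cast at h1
  linarith

lemma X0_clique (h : CA G K J σ l) {x x' : V} (hx : x ∈ X0 σ l) (hx' : x' ∈ X0 σ l) :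
    M G x x' = 0 := by
  by_cases hne : x = x'
  · rw [hne, M_self]
  rw [mem_X0] at hx hx'
  have h1 := b1_ge h
  have h2 := J_le h
  have hK : (500 : ℤ) ≤ K := by exact_mod_cast h.hK
  have h3 := key h.hM h.hN {x, x'} (by
    intro y hy
    simp only [Finset.mem_insert, Finset.mem_singleton] at hy
    rcases hy with rfl | rfl
    · exact hx.1
    · exact hx'.1) (by
    rw [Finset.card_pair hne, Finset.sum_pair hne, hx.2, hx'.2]
    push_cast
    linarith)
  rw [Finset.sum_pair hne, Finset.sum_pair hne, Finset.sum_pair hne, Finset.sum_pair hne,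
    M_self, M_self, hx.2, hx'.2, M_symm x' x] at h3
  have := M_nonneg (G := G) x x'
  linarith

lemma star (h : CA G K J σ l) (hJ9 : J ≤ 9) {z x x' : V} (hz : z ∈ Ps σ) (hlz : l z = 1)
    (hx : x ∈ X0 σ l) (hx' : x' ∈ X0 σ l) (hne : x ≠ x') (h1 : M G z x = 1) (h2 : M G z x' = 1) :
    False := by
  rw [mem_X0] at hx hx'
  have hb := b1_ge h
  have hK : (500 : ℤ) ≤ K := by exact_mod_cast h.hK
  have hJ9' : (J : ℤ) ≤ 9 := by exact_mod_cast hJ9
  have hzx : z ≠ x := M_ne h1
  have hzx' : z ≠ x' := M_ne h2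
  have m1 : x ∉ ({z} : Finset V) := by simp [hzx.symm]
  have m2 : x' ∉ (insert x {z} : Finset V) := by simp [hne.symm, hzx'.symm]
  have h3 := key h.hM h.hN (insert x' (insert x {z})) (by
    intro y hy
    simp only [Finset.mem_insert, Finset.mem_singleton] at hy
    rcases hy with rfl | rfl | rfl
    · exact hx'.1
    · exact hx.1
    · exact hz) (by
    rw [Finset.card_insert_of_notMem m2, Finset.card_insert_of_notMem m1, Finset.card_singleton,
      Finset.sum_insert m2, Finset.sum_insert m1, Finset.sum_singleton, hx.2, hx'.2, hlz]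
    push_cast
    linarith)
  rw [Finset.sum_insert (f := fun x => l x) m2, Finset.sum_insert (f := fun x => l x) m1,
    Finset.sum_singleton, hx.2, hx'.2, hlz] at h3
  have e1 := M_insert (G := G) {z} x z m1 (by simp) (by rw [M_symm]; exact h1)
  have e2 := M_insert (G := G) (insert x {z}) x' z m2 (by simp) (by rw [M_symm]; exact h2)
  have e3 : ∑ x ∈ ({z} : Finset V), ∑ y ∈ ({z} : Finset V), M G x y = 0 := by simp [M_self]
  linarith

lemma path4 (h : CA G K J σ l) (hJ1 : J = 1) {x z w x' : V} (hz : z ∈ Ps σ) (hlz : l z = 1)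
    (hw : w ∈ Ps σ) (hlw : l w = 1)
    (hx : x ∈ X0 σ l) (hx' : x' ∈ X0 σ l) (hne : x ≠ x') (h1 : M G x z = 1) (h2 : M G z w = 1)
    (h3' : M G w x' = 1) : False := by
  rw [mem_X0] at hx hx'
  have hb := b1_ge h
  have hK : (500 : ℤ) ≤ K := by exact_mod_cast h.hK
  have hJ1' : (J : ℤ) = 1 := by exact_mod_cast hJ1
  have n1 : x ≠ z := M_ne h1
  have n2 : z ≠ w := M_ne h2
  have n3 : w ≠ x' := M_ne h3'
  have n4 : x ≠ w := by rintro rfl; omega
  have n5 : z ≠ x' := by rintro rfl; omega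
  have m1 : z ∉ ({x} : Finset V) := by simp [n1.symm]
  have m2 : w ∉ (insert z {x} : Finset V) := by simp [n2.symm, n4.symm]
  have m3 : x' ∉ (insert w (insert z {x}) : Finset V) := by simp [n3.symm, n5.symm, hne.symm]
  have h3 := key h.hM h.hN (insert x' (insert w (insert z {x}))) (by
    intro y hy
    simp only [Finset.mem_insert, Finset.mem_singleton] at hy
    rcases hy with rfl | rfl | rfl | rfl
    · exact hx'.1
    · exact hw
    · exact hz
    · exact hx.1) (by
    rw [Finset.card_insert_of_notMem m3, Finset.card_insert_of_notMem m2,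
      Finset.card_insert_of_notMem m1, Finset.card_singleton, Finset.sum_insert m3,
      Finset.sum_insert m2, Finset.sum_insert m1, Finset.sum_singleton, hx.2, hx'.2, hlz, hlw]
    push_cast
    linarith)
  rw [Finset.sum_insert (f := fun x => l x) m3, Finset.sum_insert (f := fun x => l x) m2,
    Finset.sum_insert (f := fun x => l x) m1,
    Finset.sum_singleton, hx.2, hx'.2, hlz, hlw] at h3
  have e1 := M_insert (G := G) {x} z x m1 (by simp) (by rw [M_symm]; exact h1)
  have e2 := M_insert (G := G) (insert z {x}) w z m2 (by simp) (by rw [M_symm]; exact h2)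
  have e3 := M_insert (G := G) (insert w (insert z {x})) x' w m3 (by simp)
    (by rw [M_symm]; exact h3')
  have e4 : ∑ x ∈ ({x} : Finset V), ∑ y ∈ ({x} : Finset V), M G x y = 0 := by simp [M_self]
  have e5 : ∑ x_1 ∈ ({x} : Finset V), ∑ y ∈ ({x} : Finset V), M G x_1 y = 0 := by simp [M_self]
  linarith

lemma path5 (h : CA G K J σ l) (hJ1 : J = 1) {x z w z' x' : V} (hz : z ∈ Ps σ) (hlz : l z = 1)
    (hw : w ∈ Ps σ) (hlw : l w = 1) (hz' : z' ∈ Ps σ) (hlz' : l z' = 1) (hzz : z ≠ z')
    (hx : x ∈ X0 σ l) (hx' : x' ∈ X0 σ l) (hne : x ≠ x') (h1 : M G x z = 1) (h2 : M G z w = 1)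
    (h3' : M G w z' = 1) (h4' : M G z' x' = 1) : False := by
  rw [mem_X0] at hx hx'
  have hb := b1_ge h
  have hK : (500 : ℤ) ≤ K := by exact_mod_cast h.hK
  have hJ1' : (J : ℤ) = 1 := by exact_mod_cast hJ1
  have n1 : x ≠ z := M_ne h1
  have n2 : z ≠ w := M_ne h2
  have n3 : w ≠ z' := M_ne h3'
  have n4 : x ≠ w := by rintro rfl; omega
  have n5 : z ≠ x' := by rintro rfl; omega
  have n6 : z' ≠ x' := M_ne h4'
  have n7 : x ≠ z' := by rintro rfl; omega
  have n8 : w ≠ x' := by rintro rfl; omega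
  have m1 : z ∉ ({x} : Finset V) := by simp [n1.symm]
  have m2 : w ∉ (insert z {x} : Finset V) := by simp [n2.symm, n4.symm]
  have m3 : z' ∉ (insert w (insert z {x}) : Finset V) := by simp [n3.symm, hzz.symm, n7.symm]
  have m4 : x' ∉ (insert z' (insert w (insert z {x})) : Finset V) := by
    simp [n6.symm, n8.symm, n5.symm, hne.symm]
  have h3 := key h.hM h.hN (insert x' (insert z' (insert w (insert z {x})))) (by
    intro y hy
    simp only [Finset.mem_insert, Finset.mem_singleton] at hy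
    rcases hy with rfl | rfl | rfl | rfl | rfl
    · exact hx'.1
    · exact hz'
    · exact hw
    · exact hz
    · exact hx.1) (by
    rw [Finset.card_insert_of_notMem m4, Finset.card_insert_of_notMem m3,
      Finset.card_insert_of_notMem m2,
      Finset.card_insert_of_notMem m1, Finset.card_singleton, Finset.sum_insert m4,
      Finset.sum_insert m3,
      Finset.sum_insert m2, Finset.sum_insert m1, Finset.sum_singleton, hx.2, hx'.2, hlz, hlw, hlz']
    push_cast
    linarith)
  rw [Finset.sum_insert (f := fun x => l x) m4, Finset.sum_insert (f := fun x => l x) m3,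
    Finset.sum_insert (f := fun x => l x) m2,
    Finset.sum_insert (f := fun x => l x) m1,
    Finset.sum_singleton, hx.2, hx'.2, hlz, hlw, hlz'] at h3
  have e1 := M_insert (G := G) {x} z x m1 (by simp) (by rw [M_symm]; exact h1)
  have e2 := M_insert (G := G) (insert z {x}) w z m2 (by simp) (by rw [M_symm]; exact h2)
  have e3 := M_insert (G := G) (insert w (insert z {x})) z' w m3 (by simp)
    (by rw [M_symm]; exact h3')
  have e6 := M_insert (G := G) (insert z' (insert w (insert z {x}))) x' z' m4 (by simp)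
    (by rw [M_symm]; exact h4')
  have e5 : ∑ x_1 ∈ ({x} : Finset V), ∑ y ∈ ({x} : Finset V), M G x_1 y = 0 := by simp [M_self]
  linarith

/-- non-edges from `z` to the free vertices -/
def cz (G : SimpleGraph V) [DecidableRel G.Adj] (σ l : V → ℤ) (z : V) : ℤ :=
  ∑ x ∈ X0 σ l, M G z x

lemma sum_M_card (S : Finset V) (z : V) :
    ∑ x ∈ S, M G z x = ((S.filter (fun x => M G z x = 1)).card : ℤ) := by
  rw [Finset.card_filter]
  push_cast
  apply Finset.sum_congr rfl
  intro x _
  have h1 := M_nonneg (G := G) z x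
  have h2 := M_le (G := G) z x
  split_ifs with h3 <;> omega

lemma c_le_one (h : CA G K J σ l) (hJ9 : J ≤ 9) {z : V} (hz : z ∈ Ps σ) (hlz : l z = 1) :
    cz G σ l z ≤ 1 := by
  by_contra hc
  push Not at hc
  unfold cz at hc
  rw [sum_M_card] at hc
  have h1 : 1 < ((X0 σ l).filter (fun x => M G z x = 1)).card := by exact_mod_cast hc
  obtain ⟨x, hx, x', hx', hne⟩ := Finset.one_lt_card.mp h1
  rw [Finset.mem_filter] at hx hx'
  exact star h hJ9 hz hlz hx.1 hx'.1 hne hx.2 hx'.2

lemma A_sq (x y : V) : A G x y * A G x y = A G x y := by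
  have h1 := A_nonneg (G := G) x y
  have h2 := A_le (G := G) x y
  have : A G x y = 0 ∨ A G x y = 1 := by omega
  rcases this with h | h <;> rw [h] <;> norm_num

lemma A_iff (x y : V) : G.Adj x y ↔ A G x y = 1 := by
  constructor
  · exact A_one
  · intro h
    by_contra hc
    rw [A_zero hc] at h
    omega

lemma c_le_five (h : CA G K J σ l) {z : V} (hz : z ∈ Ps σ) (hlz : l z = 1) :
    cz G σ l z ≤ 5 := by
  by_contra hc
  push Not at hc
  unfold cz at hc
  rw [sum_M_card] at hc
  have h1 : 6 ≤ ((X0 σ l).filter (fun x => M G z x = 1)).card := by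
    have : (5 : ℤ) < (((X0 σ l).filter (fun x => M G z x = 1)).card : ℤ) := hc
    omega
  obtain ⟨Z, hZ, hZc⟩ := Finset.exists_subset_card_eq h1
  have hZx : ∀ x ∈ Z, x ∈ Ps σ ∧ l x = 0 ∧ M G z x = 1 := by
    intro x hx
    have := hZ hx
    rw [Finset.mem_filter, mem_X0] at this
    exact ⟨this.1.1, this.1.2, this.2⟩
  set Y := (Ns σ).filter (fun y => l y = 1) with hY
  set Yz := Y.filter (fun y => G.Adj z y) with hYz
  have hYN : Y ⊆ Ns σ := Finset.filter_subset _ _
  have hYzY : Yz ⊆ Y := Finset.filter_subset _ _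
  -- two vertices of `Z` have at most one common neighbour in `Yz`
  have hpair : ∀ x ∈ Z, ∀ x' ∈ Z, x ≠ x' → ∑ y ∈ Yz, A G x y * A G x' y ≤ 1 := by
    intro x hx x' hx' hne
    by_contra hcon
    push Not at hcon
    have e1 : ∑ y ∈ Yz, A G x y * A G x' y =
        ((Yz.filter (fun y => G.Adj x y ∧ G.Adj x' y)).card : ℤ) := by
      rw [Finset.card_filter]
      push_cast
      apply Finset.sum_congr rfl
      intro y _
      by_cases a1 : G.Adj x y <;> by_cases a2 : G.Adj x' y
      · simp [a1, a2, A_one]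
      · simp [a1, a2, A_zero a2]
      · simp [a1, A_zero a1]
      · simp [a1, A_zero a1]
    rw [e1] at hcon
    have e2 : 1 < (Yz.filter (fun y => G.Adj x y ∧ G.Adj x' y)).card := by exact_mod_cast hcon
    obtain ⟨y, hy, y', hy', hyy⟩ := Finset.one_lt_card.mp e2
    rw [Finset.mem_filter] at hy hy'
    obtain ⟨gx, lx, mx⟩ := hZx x hx
    obtain ⟨gx', lx', mx'⟩ := hZx x' hx'
    have hyN := hYN (hYzY hy.1)
    have hyN' := hYN (hYzY hy'.1)
    have hly : l y = 1 := (Finset.mem_filter.mp (hYzY hy.1)).2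
    have hly' : l y' = 1 := (Finset.mem_filter.mp (hYzY hy'.1)).2
    have hzy : G.Adj z y := (Finset.mem_filter.mp hy.1).2
    have hzy' : G.Adj z y' := (Finset.mem_filter.mp hy'.1).2
    have m1 : x ∉ ({x'} : Finset V) := by simp [hne]
    have m2 : z ∉ (insert x {x'} : Finset V) := by simp [M_ne mx, M_ne mx']
    have h4 := opt_pair h.hM (insert z (insert x {x'})) (insert y {y'}) (by
      intro u hu
      simp only [Finset.mem_insert, Finset.mem_singleton] at hu
      rcases hu with rfl | rfl | rfl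
      · exact hz
      · exact gx
      · exact gx') (by
      intro u hu
      simp only [Finset.mem_insert, Finset.mem_singleton] at hu
      rcases hu with rfl | rfl
      · exact hyN
      · exact hyN')
    have m3 : y ∉ ({y'} : Finset V) := by simp [hyy]
    simp only [Finset.sum_insert m2, Finset.sum_insert m1, Finset.sum_insert m3,
      Finset.sum_singleton, A_self, A_one hzy, A_one hzy', A_one hy.2.1, A_one hy.2.2,
      A_one hy'.2.1, A_one hy'.2.2, A_of_M mx, A_of_M mx', hlz, lx, lx', hly, hly',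
      A_symm x z, A_symm x' z] at h4
    have b1 := A_le (G := G) x x'
    have b2 := A_le (G := G) x' x
    have b3 := A_le (G := G) y y'
    have b4 := A_le (G := G) y' y
    linarith
  -- degrees
  have hd : ∀ x ∈ Z, (Yz.card : ℤ) - J ≤ ∑ y ∈ Yz, A G x y := by
    intro x hx
    obtain ⟨gx, lx, _⟩ := hZx x hx
    have e1 := sum_AM (G := G) Yz x
    have e2 : x ∉ Yz := fun hh => Finset.disjoint_left.mp PN_disj gx (hYN (hYzY hh))
    rw [if_neg e2] at e1
    have e3 : ∑ y ∈ Yz, M G x y ≤ ∑ y ∈ Ns σ, M G x y :=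
      Finset.sum_le_sum_of_subset_of_nonneg (hYzY.trans hYN) (fun y _ _ => M_nonneg x y)
    rw [mPN h.hM h.hN gx, lx] at e3
    linarith
  have hYzc : (Y.card : ℤ) - (J - 1) ≤ Yz.card := by
    have e1 := sum_AM (G := G) Y z
    have e2 : z ∉ Y := fun hh => Finset.disjoint_left.mp PN_disj hz (hYN hh)
    rw [if_neg e2] at e1
    have e3 : ∑ y ∈ Y, M G z y ≤ ∑ y ∈ Ns σ, M G z y :=
      Finset.sum_le_sum_of_subset_of_nonneg hYN (fun y _ _ => M_nonneg z y)
    rw [mPN h.hM h.hN hz, hlz] at e3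
    have e4 : ∑ y ∈ Y, A G z y = Yz.card := by
      rw [hYz, Finset.card_filter]
      push_cast
      apply Finset.sum_congr rfl
      intro y _
      by_cases a1 : G.Adj z y
      · rw [if_pos a1, A_one a1]
      · rw [if_neg a1, A_zero a1]
    linarith
  -- the count
  have hsum1 : 6 * ((Yz.card : ℤ) - J) ≤ ∑ y ∈ Yz, ∑ x ∈ Z, A G x y := by
    rw [Finset.sum_comm]
    have := Finset.sum_le_sum hd
    rw [Finset.sum_const, hZc, nsmul_eq_mul] at this
    push_cast at this
    linarith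
  have hsum2 : ∑ y ∈ Yz, ((∑ x ∈ Z, A G x y) * (∑ x ∈ Z, A G x y) - ∑ x ∈ Z, A G x y) ≤ 30 := by
    have e1 : ∀ y ∈ Yz, ((∑ x ∈ Z, A G x y) * (∑ x ∈ Z, A G x y) - ∑ x ∈ Z, A G x y) =
        ∑ x ∈ Z, ∑ x' ∈ Z.erase x, A G x y * A G x' y := by
      intro y _
      rw [Finset.sum_mul_sum, ← Finset.sum_sub_distrib]
      apply Finset.sum_congr rfl
      intro x hx
      rw [← Finset.add_sum_erase Z _ hx, A_sq]
      ring
    rw [Finset.sum_congr rfl e1, Finset.sum_comm]
    have e2 : ∀ x ∈ Z, ∑ y ∈ Yz, ∑ x' ∈ Z.erase x, A G x y * A G x' y ≤ 5 := by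
      intro x hx
      rw [Finset.sum_comm]
      have e3 : ∀ x' ∈ Z.erase x, ∑ y ∈ Yz, A G x y * A G x' y ≤ 1 := by
        intro x' hx'
        rw [Finset.mem_erase] at hx'
        exact hpair x hx x' hx'.2 hx'.1.symm
      have e4 := Finset.sum_le_sum e3
      rw [Finset.sum_const, Finset.card_erase_of_mem hx, hZc] at e4
      simpa using e4
    have e5 := Finset.sum_le_sum e2
    rw [Finset.sum_const, hZc] at e5
    simpa using e5
  have hsum3 : 2 * ∑ y ∈ Yz, ∑ x ∈ Z, A G x y - 2 * Yz.card ≤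
      ∑ y ∈ Yz, ((∑ x ∈ Z, A G x y) * (∑ x ∈ Z, A G x y) - ∑ x ∈ Z, A G x y) := by
    have e1 : 2 * ∑ y ∈ Yz, ∑ x ∈ Z, A G x y - 2 * (Yz.card : ℤ) =
        ∑ y ∈ Yz, (2 * ∑ x ∈ Z, A G x y - 2) := by
      rw [Finset.sum_sub_distrib, Finset.mul_sum]
      simp
      ring
    rw [e1]
    apply Finset.sum_le_sum
    intro y _
    set d := ∑ x ∈ Z, A G x y
    have : 0 ≤ (d - 1) * (d - 2) := by
      rcases le_or_gt d 1 with h1 | h1
      · exact mul_nonneg_of_nonpos_of_nonpos (by linarith) (by linarith)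
      · exact mul_nonneg (by linarith) (by omega)
    linarith
  have hb := b1_ge h
  have hJl := J_le h
  have hK : (500 : ℤ) ≤ K := by exact_mod_cast h.hK
  rw [← hY] at hb
  linarith

/-- double counting of the non-edges between free vertices and the others -/
lemma count (h : CA G K J σ l) (κ : ℤ) (hκ : 1 ≤ κ)
    (hc : ∀ z ∈ Ps σ, l z = 1 → cz G σ l z ≤ κ) :
    (J : ℤ) * (K + J + 1) ≤ (J + κ) * ∑ x ∈ Ps σ, l x := by
  have hsub : X0 σ l ⊆ Ps σ := Finset.filter_subset _ _
  have h1 : ∑ z ∈ Ps σ, cz G σ l z = J * ((X0 σ l).card : ℤ) := by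
    unfold cz
    rw [Finset.sum_comm]
    have : ∀ x ∈ X0 σ l, ∑ z ∈ Ps σ, M G z x = J := by
      intro x hx
      rw [mem_X0] at hx
      have := mPP h.hM h.hP hx.1
      simp_rw [M_symm x] at this
      rw [this, hx.2, add_zero]
    rw [Finset.sum_congr rfl this, Finset.sum_const, nsmul_eq_mul]
    ring
  have hJ1 : (1 : ℤ) ≤ J := by exact_mod_cast h.hJ
  have h2 : ∀ z ∈ Ps σ, cz G σ l z ≤ J * (l z - 1) + κ * l z + J * (if l z = 0 then 1 else 0) := by
    intro z hz
    have hl0 := l_nonneg h.hM z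
    by_cases e0 : l z = 0
    · rw [if_pos e0, e0]
      have : cz G σ l z = 0 := by
        unfold cz
        apply Finset.sum_eq_zero
        intro x hx
        exact X0_clique h (mem_X0.mpr ⟨hz, e0⟩) hx
      rw [this]
      linarith
    · rw [if_neg e0]
      by_cases e1 : l z = 1
      · rw [e1]
        have := hc z hz e1
        linarith
      · have e2 : 2 ≤ l z := by omega
        have e3 : cz G σ l z ≤ J + l z := by
          rw [← mPP h.hM h.hP hz]
          exact Finset.sum_le_sum_of_subset_of_nonneg hsub (fun y _ _ => M_nonneg z y)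
        have e4 : (J : ℤ) * 1 ≤ J * (l z - 1) := mul_le_mul_of_nonneg_left (by linarith) (by linarith)
        have e5 : 1 * l z ≤ κ * l z := mul_le_mul_of_nonneg_right hκ hl0
        linarith
  have h3 := Finset.sum_le_sum h2
  rw [h1, Finset.sum_add_distrib, Finset.sum_add_distrib, ← Finset.mul_sum, ← Finset.mul_sum,
    ← Finset.mul_sum, Finset.sum_sub_distrib] at h3
  have h4 : ∑ z ∈ Ps σ, (if l z = 0 then (1 : ℤ) else 0) = ((X0 σ l).card : ℤ) := by
    rw [X0, Finset.card_filter]
    push_cast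
    rfl
  rw [h4] at h3
  simp only [Finset.sum_const, nsmul_eq_mul, mul_one] at h3
  rw [h.hP] at h3
  push_cast at h3
  linarith

end Pool.Agent.J4.H49.DK
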