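import Pool.Agent.J4.H49.DK.SmallA

set_option autoImplicit false
set_option linter.unusedSectionVars false

namespace Pool.Agent.J4.H49.DK
open Finset Pool.Agent.Helper91.CK

variable {V : Type*} [Fintype V] [DecidableEq V]
variable {K J : ℕ} {G : SimpleGraph V} [DecidableRel G.Adj] {σ l : V → ℤ}

/-- when the complement has degree two: chains from the free vertices are disjoint -/
lemma j_one (h : CA G K J σ l) (hJ1 : J = 1) : 3 * (X0 σ l).card ≤ (Ps σ).card := by
  classical
  have hJ1' : (J : ℤ) = 1 := by exact_mod_cast hJ1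
  have hJ9 : J ≤ 9 := by omega
  -- `l ≤ 1` on the larger side
  have hl1 : ∀ z ∈ Ps σ, l z ≠ 0 → l z = 1 := by
    intro z hz h0
    have h1 := l_nonneg h.hM z
    have h2 := l_le h.hM h.hN hz
    omega
  -- the neighbour in the complement
  have hf : ∀ x ∈ X0 σ l, ∃ z ∈ Ps σ, M G x z = 1 := by
    intro x hx
    rw [mem_X0] at hx
    have h1 := mPP h.hM h.hP hx.1
    rw [hx.2, hJ1', sum_M_card] at h1
    have h2 : 0 < ((Ps σ).filter (fun z => M G x z = 1)).card := by
      have : (((Ps σ).filter (fun z => M G x z = 1)).card : ℤ) = 1 := by linarith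
      omega
    obtain ⟨z, hz⟩ := Finset.card_pos.mp h2
    rw [Finset.mem_filter] at hz
    exact ⟨z, hz.1, hz.2⟩
  choose! f hf1 hf2 using hf
  have hfX : ∀ x ∈ X0 σ l, l (f x) = 1 := by
    intro x hx
    apply hl1 _ (hf1 x hx)
    intro h0
    have := X0_clique h hx (mem_X0.mpr ⟨hf1 x hx, h0⟩)
    rw [hf2 x hx] at this
    omega
  have hfinj : ∀ x ∈ X0 σ l, ∀ x' ∈ X0 σ l, f x = f x' → x = x' := by
    intro x hx x' hx' he
    by_contra hne
    exact star h hJ9 (hf1 x hx) (hfX x hx) hx hx' hne (by rw [M_symm]; exact hf2 x hx)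
      (by rw [he, M_symm]; exact hf2 x' hx')
  have hg : ∀ x ∈ X0 σ l, ∃ w ∈ Ps σ, M G (f x) w = 1 ∧ w ≠ x := by
    intro x hx
    have h1 := mPP h.hM h.hP (hf1 x hx)
    rw [hfX x hx, hJ1', sum_M_card] at h1
    have h2 : 1 < ((Ps σ).filter (fun z => M G (f x) z = 1)).card := by
      have : (((Ps σ).filter (fun z => M G (f x) z = 1)).card : ℤ) = 2 := by linarith
      omega
    obtain ⟨w, hw, hne⟩ := Finset.exists_mem_ne h2 x
    rw [Finset.mem_filter] at hw
    exact ⟨w, hw.1, hw.2, hne⟩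
  choose! g hg1 hg2 hg3 using hg
  have hgX : ∀ x ∈ X0 σ l, l (g x) = 1 := by
    intro x hx
    apply hl1 _ (hg1 x hx)
    intro h0
    exact star h hJ9 (hf1 x hx) (hfX x hx) hx (mem_X0.mpr ⟨hg1 x hx, h0⟩) (hg3 x hx).symm
      (by rw [M_symm]; exact hf2 x hx) (hg2 x hx)
  have hfg : ∀ x ∈ X0 σ l, ∀ x' ∈ X0 σ l, g x ≠ f x' := by
    intro x hx x' hx' he
    by_cases hne : x = x'
    · subst hne
      have := hg2 x hx
      rw [he, M_self] at this
      omega
    · exact path4 h hJ1 (hf1 x hx) (hfX x hx) (hg1 x hx) (hgX x hx) hx hx' hne (hf2 x hx)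
        (hg2 x hx) (by rw [he, M_symm]; exact hf2 x' hx')
  have hginj : ∀ x ∈ X0 σ l, ∀ x' ∈ X0 σ l, g x = g x' → x = x' := by
    intro x hx x' hx' he
    by_contra hne
    exact path5 h hJ1 (hf1 x hx) (hfX x hx) (hg1 x hx) (hgX x hx) (hf1 x' hx') (hfX x' hx')
      (fun hh => hne (hfinj x hx x' hx' hh)) hx hx' hne (hf2 x hx) (hg2 x hx)
      (by rw [he, M_symm]; exact hg2 x' hx') (by rw [M_symm]; exact hf2 x' hx')
  -- the three disjoint sets
  set S1 := (X0 σ l).image f with hS1
  set S2 := (X0 σ l).image g with hS2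
  have c1 : S1.card = (X0 σ l).card := Finset.card_image_of_injOn (fun x hx x' hx' he =>
    hfinj x hx x' hx' he)
  have c2 : S2.card = (X0 σ l).card := Finset.card_image_of_injOn (fun x hx x' hx' he =>
    hginj x hx x' hx' he)
  have d1 : Disjoint (X0 σ l) S1 := by
    rw [Finset.disjoint_left]
    intro z hz hz1
    rw [hS1, Finset.mem_image] at hz1
    obtain ⟨x, hx, rfl⟩ := hz1
    have e1 := hfX x hx
    rw [mem_X0] at hz
    omega
  have d2 : Disjoint (X0 σ l ∪ S1) S2 := by
    rw [Finset.disjoint_left]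
    intro z hz hz1
    rw [hS2, Finset.mem_image] at hz1
    obtain ⟨x, hx, rfl⟩ := hz1
    rw [Finset.mem_union] at hz
    rcases hz with hz | hz
    · have e1 := hgX x hx
      rw [mem_X0] at hz
      omega
    · rw [hS1, Finset.mem_image] at hz
      obtain ⟨x', hx', he⟩ := hz
      exact hfg x hx x' hx' he.symm
  have hsub : X0 σ l ∪ S1 ∪ S2 ⊆ Ps σ := by
    intro z hz
    rw [Finset.mem_union, Finset.mem_union] at hz
    rcases hz with (hz | hz) | hz
    · exact (mem_X0.mp hz).1
    · rw [hS1, Finset.mem_image] at hz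
      obtain ⟨x, hx, rfl⟩ := hz
      exact hf1 x hx
    · rw [hS2, Finset.mem_image] at hz
      obtain ⟨x, hx, rfl⟩ := hz
      exact hg1 x hx
  have := Finset.card_le_card hsub
  rw [Finset.card_union_of_disjoint d2, Finset.card_union_of_disjoint d1, c1, c2] at this
  omega

/-- the average of `l` on the larger side is at least `2/3` -/
theorem caseA (h : CA G K J σ l) : 2 * ((K : ℤ) + J + 1) ≤ 3 * ∑ x ∈ Ps σ, l x := by
  have hE0 : 0 ≤ ∑ x ∈ Ps σ, l x := Finset.sum_nonneg (fun x _ => l_nonneg h.hM x)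
  set E := ∑ x ∈ Ps σ, l x with hE
  have hKJ : (0 : ℤ) ≤ K + J + 1 := by positivity
  rcases Nat.lt_or_ge J 10 with hJ | hJ
  · rcases Nat.lt_or_ge J 2 with hJ2 | hJ2
    · have hJ1 : J = 1 := by
        have := h.hJ
        omega
      have h1 := j_one h hJ1
      have h2 : ((Ps σ).card : ℤ) - (X0 σ l).card ≤ E := by
        have e1 : ((Ps σ).card : ℤ) = ∑ y ∈ Ps σ, (1 : ℤ) := by simp
        have e2 : ((X0 σ l).card : ℤ) = ∑ y ∈ Ps σ, (if l y = 0 then (1 : ℤ) else 0) := by
          rw [X0, Finset.card_filter]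
          push_cast
          rfl
        rw [e1, e2, ← Finset.sum_sub_distrib, hE]
        apply Finset.sum_le_sum
        intro y _
        have := l_nonneg h.hM y
        split_ifs <;> omega
      have h3 : 3 * ((X0 σ l).card : ℤ) ≤ ((Ps σ).card : ℤ) := by exact_mod_cast h1
      rw [h.hP] at h2 h3
      push_cast at h2 h3
      linarith
    · have h1 := count h 1 (le_refl _) (fun z hz hlz => c_le_one h (by omega) hz hlz)
      rw [← hE] at h1
      have hJ' : (2 : ℤ) ≤ J := by exact_mod_cast hJ2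
      have h2 : 0 ≤ ((J : ℤ) - 2) * E := mul_nonneg (by linarith) hE0
      have h3 : (J : ℤ) * (2 * ((K : ℤ) + J + 1)) ≤ J * (3 * E) := by linarith
      exact le_of_mul_le_mul_left h3 (by linarith)
  · have h1 := count h 5 (by norm_num) (fun z hz hlz => c_le_five h hz hlz)
    rw [← hE] at h1
    have hJ' : (10 : ℤ) ≤ J := by exact_mod_cast hJ
    have h2 : 0 ≤ ((J : ℤ) - 10) * E := mul_nonneg (by linarith) hE0
    have h3 : (J : ℤ) * (2 * ((K : ℤ) + J + 1)) ≤ J * (3 * E) := by linarith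
    exact le_of_mul_le_mul_left h3 (by linarith)

end Pool.Agent.J4.H49.DK
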