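import Pool.Agent.J4.H49.DK.SmallA2

set_option autoImplicit false
set_option linter.unusedSectionVars false

namespace Pool.Agent.J4.H49.DK
open Finset Pool.Agent.Helper91.CK

variable {V : Type*} [Fintype V] [DecidableEq V]
variable {K J : ℕ} {G : SimpleGraph V} [DecidableRel G.Adj] {σ l : V → ℤ}

lemma half_exists (hreg : ∀ v, ∑ y, ad G v y = 2 * K) (hs : Sg σ) :
    ∃ l : V → ℤ, ∀ x, loc (A G) σ x = 2 * l x := by
  have h : ∀ x, ∃ c : ℤ, loc (A G) σ x = 2 * c := by
    intro x
    obtain ⟨c, hc⟩ := loc_parity hreg hs x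
    refine ⟨c - K, ?_⟩
    rw [hc]
    push_cast
    ring
  choose l hl using h
  exact ⟨l, hl⟩

/-- moving a free vertex of the smaller side -/
lemma flip_free (hM : Mx G K σ l) {y : V} (hy : y ∈ Ns σ) (h0 : l y = 0) :
    ∃ l' : V → ℤ, Mx G K (flip {y} σ) l' ∧ ∑ x, flip {y} σ x = ∑ x, σ x + 2 ∧
      F (A G) univ (flip {y} σ) = F (A G) univ σ := by
  have hF : F (A G) univ (flip {y} σ) = F (A G) univ σ := by
    rw [flip_one (A G) A_symm A_self, hM.hl y, h0]
    ring
  have hs' := flip_Sg {y} hM.hs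
  obtain ⟨l', hl'⟩ := half_exists hM.hreg hs'
  refine ⟨l', ⟨hM.hreg, hs', hl', ?_⟩, ?_, hF⟩
  · intro τ hτ
    rw [hF]
    exact hM.hmax τ hτ
  · rw [flip_one_sum, mem_Ns.mp hy]
    ring

lemma A_card (S : Finset V) (x : V) :
    ∑ y ∈ S, A G x y = ((S.filter (fun y => G.Adj x y)).card : ℤ) := by
  rw [Finset.card_filter]
  push_cast
  apply Finset.sum_congr rfl
  intro y _
  by_cases h : G.Adj x y
  · rw [if_pos h, A_one h]
  · rw [if_neg h, A_zero h]

/-- the second case is impossible -/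
theorem caseB (hM : Mx G K σ l) (hP : (Ps σ).card = K + J + 2) (hN : (Ns σ).card + 1 = K + J)
    (hJ : J ≤ 2 * K) (hJ2 : 2 * K ≤ J + 10) (hK : 500 ≤ K)
    (hE : ∑ x ∈ Ps σ, l x ≤ 1) (hE2 : ∑ x ∈ Ns σ, l x ≤ 3 * K + 1) : False := by
  classical
  have hl0 := l_nonneg hM
  have hKz : (500 : ℤ) ≤ K := by exact_mod_cast hK
  have hJz : (J : ℤ) ≤ 2 * K := by exact_mod_cast hJ
  have hJ2z : 2 * (K : ℤ) ≤ J + 10 := by exact_mod_cast hJ2
  have hNz : ((Ns σ).card : ℤ) = K + J - 1 := by
    have : ((Ns σ).card : ℤ) + 1 = K + J := by exact_mod_cast hN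
    linarith
  have hPz : ((Ps σ).card : ℤ) = K + J + 2 := by exact_mod_cast hP
  -- no free vertex on the smaller side
  have hl1 : ∀ y ∈ Ns σ, 1 ≤ l y := by
    intro y hy
    by_contra hc
    have h0 : l y = 0 := by
      have := hl0 y
      omega
    obtain ⟨l', hM', hsum, hF⟩ := flip_free hM hy h0
    have e1 := sum_lP hM'
    have e2 := sum_lP hM
    have e3 : 0 ≤ ∑ x ∈ Ps (flip {y} σ), l' x :=
      Finset.sum_nonneg (fun x _ => l_nonneg hM' x)
    have e4 := card_diff hM.hs
    rw [hPz, hNz] at e4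
    rw [hsum, ← e4, hF] at e1
    rw [← e4] at e2
    have e5 : (K : ℤ) + J + 2 - (K + J - 1) = 3 := by ring
    rw [e5] at e1 e2
    linarith
  have hlP1 : ∀ v ∈ Ps σ, l v ≤ 1 := by
    intro v hv
    have := Finset.single_le_sum (f := fun x => l x) (fun x _ => hl0 x) hv
    linarith
  set Y := (Ns σ).filter (fun y => l y = 1 ∧ ∀ v ∈ Ps σ, 0 < l v → ¬ G.Adj v y) with hY
  have hYc : (K : ℤ) < Y.card := by
    have h1 : ∀ y ∈ Ns σ, (1 : ℤ) ≤
        (if l y = 1 ∧ ∀ v ∈ Ps σ, 0 < l v → ¬ G.Adj v y then (1 : ℤ) else 0) + (l y - 1) +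
          ∑ v ∈ Ps σ, l v * A G v y := by
      intro y hy
      have hy1 := hl1 y hy
      have hs0 : ∀ v ∈ Ps σ, 0 ≤ l v * A G v y := fun v _ => mul_nonneg (hl0 v) (A_nonneg _ _)
      have hsn : 0 ≤ ∑ v ∈ Ps σ, l v * A G v y := Finset.sum_nonneg hs0
      by_cases hc : l y = 1 ∧ ∀ v ∈ Ps σ, 0 < l v → ¬ G.Adj v y
      · rw [if_pos hc]
        linarith
      · rw [if_neg hc]
        by_cases hy2 : l y = 1
        · have : ∃ v ∈ Ps σ, 0 < l v ∧ G.Adj v y := by
            by_contra hcon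
            push Not at hcon
            exact hc ⟨hy2, hcon⟩
          obtain ⟨v, hv, hv0, hva⟩ := this
          have e1 := Finset.single_le_sum hs0 hv
          rw [A_one hva] at e1
          linarith
        · have : 2 ≤ l y := by omega
          linarith
    have h2 := Finset.sum_le_sum h1
    rw [Finset.sum_add_distrib, Finset.sum_add_distrib, Finset.sum_sub_distrib] at h2
    have h3 : ∑ y ∈ Ns σ, ∑ v ∈ Ps σ, l v * A G v y ≤ K + 1 := by
      rw [Finset.sum_comm]
      have e1 : ∀ v ∈ Ps σ, ∑ y ∈ Ns σ, l v * A G v y ≤ l v * (K + 1) := by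
        intro v hv
        rw [← Finset.mul_sum, dPN hM hv]
        apply mul_le_mul_of_nonneg_left _ (hl0 v)
        have := hlP1 v hv
        linarith
      have e2 := Finset.sum_le_sum e1
      rw [← Finset.sum_mul] at e2
      have e3 : (∑ v ∈ Ps σ, l v) * ((K : ℤ) + 1) ≤ 1 * (K + 1) :=
        mul_le_mul_of_nonneg_right hE (by linarith)
      linarith
    have h4 : ∑ y ∈ Ns σ, (if l y = 1 ∧ ∀ v ∈ Ps σ, 0 < l v → ¬ G.Adj v y then (1 : ℤ) else 0) =
        Y.card := by
      rw [hY, Finset.card_filter]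
      push_cast
      rfl
    rw [h4] at h2
    simp only [Finset.sum_const, nsmul_eq_mul, mul_one] at h2
    rw [hNz] at h2
    linarith
  -- the cliques
  set Kf : V → Finset V := fun y => (Ps σ).filter (fun x => G.Adj x y) with hKf
  have hKc : ∀ y ∈ Y, (Kf y).card = K + 1 := by
    intro y hy
    rw [hY, Finset.mem_filter] at hy
    have e1 := dNP hM hy.1
    rw [A_card, hy.2.1] at e1
    have e2 : Kf y = (Ps σ).filter (fun x => G.Adj y x) := by
      rw [hKf]
      apply Finset.filter_congr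
      intro x _
      exact G.adj_comm x y
    rw [e2]
    exact_mod_cast e1
  have hKl : ∀ y ∈ Y, ∀ x ∈ Kf y, l x = 0 := by
    intro y hy x hx
    rw [hY, Finset.mem_filter] at hy
    rw [hKf, Finset.mem_filter] at hx
    by_contra hc
    have h1 := hl0 x
    exact hy.2.2 x hx.1 (by omega) hx.2
  have hKcl : ∀ y ∈ Y, ∀ x ∈ Kf y, ∀ x' ∈ Kf y, x ≠ x' → G.Adj x x' := by
    intro y hy x hx x' hx' hne
    have l1 := hKl y hy x hx
    have l2 := hKl y hy x' hx'
    rw [hY, Finset.mem_filter] at hy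
    rw [hKf, Finset.mem_filter] at hx hx'
    have h4 := opt_pair hM {x, x'} {y} (by
      intro u hu
      simp only [Finset.mem_insert, Finset.mem_singleton] at hu
      rcases hu with rfl | rfl
      · exact hx.1
      · exact hx'.1) (by
      intro u hu
      rw [Finset.mem_singleton] at hu
      rw [hu]
      exact hy.1)
    simp only [Finset.sum_pair hne, Finset.sum_singleton, A_self, A_one hx.2, A_one hx'.2, l1, l2,
      hy.2.1, A_symm x' x] at h4
    rw [A_iff]
    have := A_le (G := G) x x'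
    linarith
  -- neighbourhoods inside the larger side
  have hNb : ∀ y ∈ Y, ∀ x ∈ Kf y, (Ps σ).filter (fun u => G.Adj x u) = (Kf y).erase x := by
    intro y hy x hx
    symm
    apply Finset.eq_of_subset_of_card_le
    · intro u hu
      rw [Finset.mem_erase] at hu
      rw [Finset.mem_filter]
      exact ⟨(Finset.mem_filter.mp hu.2).1, hKcl y hy x hx u hu.2 hu.1.symm⟩
    · rw [Finset.card_erase_of_mem hx, hKc y hy]
      have hxP : x ∈ Ps σ := (Finset.mem_filter.mp hx).1
      have e1 := dPP hM hxP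
      rw [A_card, hKl y hy x hx] at e1
      have e2 : ((Ps σ).filter (fun u => G.Adj x u)).card = K := by
        have : (((Ps σ).filter (fun u => G.Adj x u)).card : ℤ) = K := by linarith
        exact_mod_cast this
      omega
  have hYne : Y.Nonempty := by
    rw [← Finset.card_pos]
    have : (0 : ℤ) < Y.card := by linarith
    exact_mod_cast this
  obtain ⟨y0, hy0⟩ := hYne
  have hK0 : (Kf y0).Nonempty := by
    rw [← Finset.card_pos, hKc y0 hy0]
    omega
  obtain ⟨x0, hx0⟩ := hK0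
  have hy1 : ∃ y1 ∈ Y, ¬ G.Adj x0 y1 := by
    by_contra hcon
    push Not at hcon
    have hsub : Y ⊆ (Ns σ).filter (fun y => G.Adj x0 y) := by
      intro y hy
      rw [Finset.mem_filter]
      exact ⟨(Finset.mem_filter.mp hy).1, hcon y hy⟩
    have e1 := Finset.card_le_card hsub
    have e2 := dPN hM (Finset.mem_filter.mp hx0).1
    rw [A_card, hKl y0 hy0 x0 hx0] at e2
    have e3 : (Y.card : ℤ) ≤ (((Ns σ).filter (fun y => G.Adj x0 y)).card : ℤ) := by
      exact_mod_cast e1
    linarith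
  obtain ⟨y1, hy1, hna⟩ := hy1
  have hdis : Disjoint (Kf y0) (Kf y1) := by
    rw [Finset.disjoint_left]
    intro x hx hx'
    have e1 := hNb y0 hy0 x hx
    have e2 := hNb y1 hy1 x hx'
    rw [e1] at e2
    have e3 : x0 ∈ Kf y1 := by
      by_cases hxx : x0 = x
      · rw [hxx]; exact hx'
      · have : x0 ∈ (Kf y0).erase x := Finset.mem_erase.mpr ⟨hxx, hx0⟩
        rw [e2] at this
        exact Finset.mem_of_mem_erase this
    exact hna (Finset.mem_filter.mp e3).2
  set Rs := Ps σ \ (Kf y0 ∪ Kf y1) with hRs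
  have hsub : Kf y0 ∪ Kf y1 ⊆ Ps σ := Finset.union_subset (Finset.filter_subset _ _)
    (Finset.filter_subset _ _)
  have hRc : (Rs.card : ℤ) = J - K := by
    rw [hRs, Finset.card_sdiff_of_subset hsub, Finset.card_union_of_disjoint hdis, hKc y0 hy0,
      hKc y1 hy1, hP]
    omega
  have hx : ∃ x ∈ Rs, l x = 0 := by
    by_contra hcon
    push Not at hcon
    have e1 : (Rs.card : ℤ) ≤ ∑ x ∈ Rs, l x := by
      have : (Rs.card : ℤ) = ∑ x ∈ Rs, (1 : ℤ) := by simp
      rw [this]
      apply Finset.sum_le_sum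
      intro x hx
      have := hcon x hx
      have := hl0 x
      omega
    have e2 : ∑ x ∈ Rs, l x ≤ ∑ x ∈ Ps σ, l x :=
      Finset.sum_le_sum_of_subset_of_nonneg Finset.sdiff_subset (fun x _ _ => hl0 x)
    linarith
  obtain ⟨x, hx, hlx⟩ := hx
  have hxP : x ∈ Ps σ := (Finset.mem_sdiff.mp hx).1
  have hxn : x ∉ Kf y0 ∧ x ∉ Kf y1 := by
    have := (Finset.mem_sdiff.mp hx).2
    rw [Finset.mem_union] at this
    push Not at this
    exact this
  have hins : insert x ((Ps σ).filter (fun u => G.Adj x u)) ⊆ Rs := by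
    intro u hu
    rw [Finset.mem_insert] at hu
    rcases hu with rfl | hu
    · exact hx
    · rw [Finset.mem_filter] at hu
      have key : ∀ y ∈ Y, x ∉ Kf y → u ∉ Kf y := by
        intro y hy hxy huy
        have e1 := hNb y hy u huy
        have e2 : x ∈ (Ps σ).filter (fun v => G.Adj u v) := by
          rw [Finset.mem_filter]
          exact ⟨hxP, hu.2.symm⟩
        rw [e1] at e2
        exact hxy (Finset.mem_of_mem_erase e2)
      rw [hRs, Finset.mem_sdiff, Finset.mem_union]
      push Not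
      exact ⟨hu.1, key y0 hy0 hxn.1, key y1 hy1 hxn.2⟩
  have e1 := Finset.card_le_card hins
  have e2 : x ∉ (Ps σ).filter (fun u => G.Adj x u) := by
    rw [Finset.mem_filter]
    rintro ⟨_, h⟩
    exact G.loopless.irrefl _ h
  rw [Finset.card_insert_of_notMem e2] at e1
  have e3 := dPP hM hxP
  rw [A_card, hlx] at e3
  have e4 : (((Ps σ).filter (fun u => G.Adj x u)).card : ℤ) + 1 ≤ Rs.card := by exact_mod_cast e1
  linarith

end Pool.Agent.J4.H49.DK
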