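import Pool.Agent.J4.H49.DK.SmallB

set_option autoImplicit false
set_option linter.unusedSectionVars false

namespace Pool.Agent.J4.H49.DK
open Finset Pool.Agent.Helper91.CK

variable {V : Type*} [Fintype V] [DecidableEq V]
variable {K J : ℕ} {G : SimpleGraph V} [DecidableRel G.Adj]

/-- a maximum cut exists -/
lemma exists_max (W : V → V → ℤ) : ∃ σ : V → ℤ, Sg σ ∧ ∀ τ, Sg τ → F W univ τ ≤ F W univ σ := by
  obtain ⟨S, _, hS⟩ := Finset.exists_max_image (univ : Finset (Finset V))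
    (fun S => F W univ (sg S)) ⟨∅, Finset.mem_univ _⟩
  refine ⟨sg S, sg_Sg S, ?_⟩
  intro τ hτ
  have h := hS (univ.filter (fun v => τ v = 1)) (Finset.mem_univ _)
  have e : sg (univ.filter (fun v => τ v = 1)) = τ := by
    funext v
    unfold sg
    rcases hτ v with h | h
    · rw [if_pos (by simp [h]), h]
    · rw [if_neg (by simp [h]), h]
  rw [e] at h
  exact h

theorem small_odd (hK : 500 ≤ K) (hreg : ∀ v, ∑ y, ad G v y = 2 * K) (hJ1 : 1 ≤ J)
    (hJ2 : J ≤ 2 * K) (hn : Fintype.card V = 2 * K + 1 + 2 * J) :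
    ∃ σ : V → ℤ, Sg σ ∧ ∑ x, σ x = 1 ∧
      (2 * (K : ℤ) + 8) * (2 * K + 1 + 2 * J) ≤
        3 * (2 * (K : ℤ) + 1) * (F (A G) univ σ - 4 * K) := by
  by_contra hcon
  push Not at hcon
  have hKz : (500 : ℤ) ≤ K := by exact_mod_cast hK
  have hJ1z : (1 : ℤ) ≤ J := by exact_mod_cast hJ1
  have hJz : (J : ℤ) ≤ 2 * K := by exact_mod_cast hJ2
  have hnz : (Fintype.card V : ℤ) = 2 * K + 1 + 2 * J := by
    rw [hn]; push_cast; ring
  have hodd : ∀ σ : V → ℤ, Sg σ → 0 ≤ ∑ x, σ x → ∑ x, σ x ≤ 1 → ∑ x, σ x = 1 := by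
    intro σ hs h1 h2
    obtain ⟨c, hc⟩ := sum_parity hs
    rw [hnz] at hc
    omega
  obtain ⟨σ0, hs0, hmax0⟩ := exists_max (A G)
  -- a maximum cut that is balanced
  obtain ⟨σ, hs, hsum, hmax⟩ : ∃ σ : V → ℤ, Sg σ ∧ ∑ x, σ x = 1 ∧
      ∀ τ, Sg τ → F (A G) univ τ ≤ F (A G) univ σ := by
    rcases le_or_gt (2 * (2 * (K : ℤ) + 1 + 2 * J) + 2 * K) (F (A G) univ σ0) with h1 | h1
    · exfalso
      obtain ⟨σ, g1, g2, g3, g4⟩ := rb_even (k := 2 * K) (by omega) (even_two_mul K)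
        (by omega) hreg (2 * (2 * (K : ℤ) + 1 + 2 * J) + 2 * K) (by rw [hnz]; push_cast; linarith)
        σ0 hs0 h1
      have g5 := hcon σ g1 (hodd σ g1 g3 g4)
      have g6 : 3 * (2 * (K : ℤ) + 1) * (2 * (2 * (K : ℤ) + 1 + 2 * J) + 2 * K - 4 * K) ≤
          3 * (2 * (K : ℤ) + 1) * (F (A G) univ σ - 4 * K) :=
        mul_le_mul_of_nonneg_left (by linarith) (by positivity)
      have g7 : 0 ≤ ((K : ℤ) - 500) * K := mul_nonneg (by linarith) (by linarith)
      have g8 : 0 ≤ ((K : ℤ) - 500) * J := mul_nonneg (by linarith) (by linarith)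
      nlinarith
    · obtain ⟨σ, g1, g2, g3, g4⟩ := rb_even (k := 2 * K) (by omega) (even_two_mul K)
        (by omega) hreg (F (A G) univ σ0) (by rw [hnz]; push_cast; linarith)
        σ0 hs0 (le_refl _)
      exact ⟨σ, g1, hodd σ g1 g3 g4, fun τ hτ => (hmax0 τ hτ).trans g2⟩
  obtain ⟨l, hl⟩ := half_exists hreg hs
  have hM : Mx G K σ l := ⟨hreg, hs, hl, hmax⟩
  have hT := hcon σ hs hsum
  have hE := sum_lP hM
  have hEN := sum_lN hM
  rw [hsum] at hE hEN
  have c1 := card_PN hs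
  have c2 := card_diff hs
  rw [hnz] at c1
  rw [hsum] at c2
  have hP : (Ps σ).card = K + J + 1 := by omega
  have hN : (Ns σ).card = K + J := by omega
  set E := ∑ x ∈ Ps σ, l x with hEdef
  have hF : F (A G) univ σ = 4 * E + 2 * K := by linarith
  rw [hF] at hT
  have hT6 : 6 * E ≤ 4 * K + J + 10 := by
    by_contra hc
    push Not at hc
    have e1 : 4 * (K : ℤ) + J + 11 ≤ 6 * E := by omega
    have e2 : (2 * (K : ℤ) + 1) * (2 * (4 * (K : ℤ) + J + 11)) ≤ (2 * (K : ℤ) + 1) * (2 * (6 * E)) :=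
      mul_le_mul_of_nonneg_left (by linarith) (by positivity)
    nlinarith
  by_cases hfree : ∀ y ∈ Ns σ, 1 ≤ l y
  · have h := caseA (J := J) ⟨hM, hP, hN, hJ1, hK, hfree, hT6⟩
    rw [← hEdef] at h
    have e2 : (2 * (K : ℤ) + 1) * (4 * (2 * ((K : ℤ) + J + 1))) ≤
        (2 * (K : ℤ) + 1) * (4 * (3 * E)) :=
      mul_le_mul_of_nonneg_left (by linarith) (by positivity)
    have e3 : 0 ≤ (12 * (K : ℤ) - 8) * J := mul_nonneg (by linarith) (by linarith)
    nlinarith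
  · push Not at hfree
    obtain ⟨y, hy, hy1⟩ := hfree
    have hy0 : l y = 0 := by
      have := l_nonneg hM y
      omega
    obtain ⟨l', hM', hsum', hF'⟩ := flip_free hM hy hy0
    rw [hsum] at hsum'
    have e1 := sum_lP hM'
    have e2 := sum_lN hM'
    rw [hsum', hF', hF] at e1 e2
    have c3 := card_PN hM'.hs
    have c4 := card_diff hM'.hs
    rw [hnz] at c3
    rw [hsum'] at c4
    have e3 : 0 ≤ ∑ x ∈ Ps (flip {y} σ), l' x :=
      Finset.sum_nonneg (fun x _ => l_nonneg hM' x)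
    exact caseB (J := J) hM' (by omega) (by omega) hJ2 (by omega) hK (by omega) (by omega)

end Pool.Agent.J4.H49.DK
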